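import Pool.Agent.Helper72.LSr.C0
import Pool.Agent.Helper7.LSr.Cb
import Pool.Agent.Helper88.LSr.Cc
import Pool.Agent.Helper26.LSr.Cd
import Pool.Agent.Helper63.LSr.Ca

/-!
# Counting, second layer (pieces LR-C1 .. LR-C6)
-/

namespace Pool.Agent.Helper72.LSr

open Finset
open scoped Classical

variable {V : Type} (G : SimpleGraph V)

/-- removing a set of vertices one after the other (the earlier ones in the ordering `f` first) -/
theorem K_order (S R : Finset V) (hR : R ⊆ S) (f : V → ℕ) (hf : Set.InjOn f R) (r : ℕ) :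
    K G S (r + 1) = K G (S \ R) (r + 1) +
      ∑ u ∈ R, K G (nb G S u \ Qf G R f u) r := by
  apply Pool.Agent.Helper63.LSr.K_order <;> assumption

/-- the number of cliques of a set, by their last vertex -/
theorem K_last (R : Finset V) (f : V → ℕ) (hf : Set.InjOn f R) (r : ℕ) :
    K G R (r + 1) = ∑ u ∈ R, K G (Qf G R f u) r := by
  apply Pool.Agent.Helper63.LSr.K_last <;> assumption

/-- cliques meeting `Q`: union bound -/
theorem K_sub_sdiff_le (N Q : Finset V) (hQ : Q ⊆ N) (r : ℕ) :
    K G N (r + 1) - K G (N \ Q) (r + 1) ≤ ∑ x ∈ Q, K G (nb G N x) r := by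
  apply Pool.Agent.Helper7.LSr.K_sub_sdiff_le <;> assumption

/-- an upper bound for cliques meeting a union -/
theorem K_sub_sdiff_union (N Q R : Finset V) (r : ℕ) :
    K G N r - K G (N \ (Q ∪ R)) r ≤ (K G N r - K G (N \ Q) r) + (K G N r - K G (N \ R) r) := by
  apply Pool.Agent.Helper7.LSr.K_sub_sdiff_union <;> assumption

/-- if there are no edges between `Q \ R` and `R \ Q` -/
theorem K_sdiff_union_of_no_cross (N Q R : Finset V)
    (h : ∀ x ∈ Q \ R, ∀ y ∈ R \ Q, ¬ G.Adj x y) (r : ℕ) :
    (K G N r - K G (N \ Q) r) + (K G N r - K G (N \ R) r)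
      = (K G N r - K G (N \ (Q ∪ R)) r) + (K G N r - K G (N \ (Q ∩ R)) r) := by
  apply Pool.Agent.Helper7.LSr.K_sdiff_union_of_no_cross <;> assumption

/-- edges of `N \ Q` -/
theorem K_two_sdiff (N Q : Finset V) (hQ : Q ⊆ N) :
    K G (N \ Q) 2 = K G N 2 - ∑ x ∈ Q, ((nb G N x).card : ℤ) + K G Q 2 := by
  apply Pool.Agent.Helper88.LSr.K_two_sdiff <;> assumption

/-- twice the number of edges -/
theorem two_K_two (S : Finset V) : 2 * K G S 2 = ∑ v ∈ S, ((nb G S v).card : ℤ) := by
  apply Pool.Agent.Helper88.LSr.two_K_two <;> assumption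

/-- `(r+1) k_{r+1}` counts pairs (vertex, clique through it) -/
theorem succ_K (S : Finset V) (r : ℕ) :
    ((r : ℤ) + 1) * K G S (r + 1) = ∑ v ∈ S, K G (nb G S v) r := by
  apply Pool.Agent.Helper88.LSr.succ_K <;> assumption

/-- an ordering compatible with an integer function -/
theorem exists_order (R : Finset V) (D : V → ℤ) :
    ∃ f : V → ℕ, Set.InjOn f R ∧ ∀ x ∈ R, ∀ u ∈ R, f x < f u → D x ≤ D u := by
  apply Pool.Agent.Helper26.LSr.exists_order <;> assumption

/-- an ordering with a prescribed last element -/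
theorem exists_order_last (R : Finset V) (y : V) (hy : y ∈ R) :
    ∃ f : V → ℕ, Set.InjOn f R ∧ ∀ x ∈ R, x ≠ y → f x < f y := by
  apply Pool.Agent.Helper26.LSr.exists_order_last <;> assumption

/-- deleting edges one by one: every smaller number of edges is attained by a subgraph -/
theorem exists_subgraph (S : Finset V) (m : ℤ) (h0 : 0 ≤ m) (hm : m ≤ K G S 2) :
    ∃ G' : SimpleGraph V, K G' S 2 = m ∧ ∀ r, K G' S r ≤ K G S r := by
  apply Pool.Agent.Helper26.LSr.exists_subgraph <;> assumption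

end Pool.Agent.Helper72.LSr
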