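import Pool.Agent.Helper72.LSr.Defs

/-!
# Counting basics (proved)
-/

namespace Pool.Agent.Helper72.LSr

open Finset
open scoped Classical

variable {V : Type} (G : SimpleGraph V)

theorem mem_nb {S : Finset V} {v x : V} : x ∈ nb G S v ↔ x ∈ S ∧ G.Adj v x := by
  unfold nb; rw [mem_filter]

theorem nb_subset (S : Finset V) (v : V) : nb G S v ⊆ S := filter_subset _ _

theorem not_mem_nb_self (S : Finset V) (v : V) : v ∉ nb G S v := by
  rw [mem_nb]; simp

theorem nb_mono {S S' : Finset V} (h : S ⊆ S') (v : V) : nb G S v ⊆ nb G S' v :=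
  filter_subset_filter _ h

theorem K_nonneg (S : Finset V) (r : ℕ) : 0 ≤ K G S r := by
  unfold K; positivity

theorem K_mono {S S' : Finset V} (h : S ⊆ S') (r : ℕ) : K G S r ≤ K G S' r := by
  unfold K
  have : ((S.powersetCard r).filter (fun t : Finset V => G.IsClique (t : Set V)))
      ⊆ ((S'.powersetCard r).filter (fun t : Finset V => G.IsClique (t : Set V))) :=
    filter_subset_filter _ (powersetCard_mono h)
  exact_mod_cast card_le_card this

theorem K_congr (G' : SimpleGraph V) (S : Finset V) (r : ℕ)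
    (h : ∀ x ∈ S, ∀ y ∈ S, G.Adj x y ↔ G'.Adj x y) : K G S r = K G' S r := by
  unfold K
  congr 2
  apply filter_congr
  intro t ht
  rw [mem_powersetCard] at ht
  rw [SimpleGraph.isClique_iff, SimpleGraph.isClique_iff]
  constructor
  · intro hc x hx y hy hxy
    exact (h x (ht.1 hx) y (ht.1 hy)).1 (hc hx hy hxy)
  · intro hc x hx y hy hxy
    exact (h x (ht.1 hx) y (ht.1 hy)).2 (hc hx hy hxy)

theorem K_zero (S : Finset V) : K G S 0 = 1 := by
  unfold K
  rw [powersetCard_zero]
  rw [filter_true_of_mem]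
  · simp
  · intro t ht
    rw [mem_singleton] at ht
    subst ht
    simp

theorem K_empty (r : ℕ) : K G ∅ (r + 1) = 0 := by
  unfold K
  rw [powersetCard_eq_empty.2 (by simp)]
  simp

/-- the vertex recursion -/
theorem K_insert {S : Finset V} {v : V} (hv : v ∉ S) (r : ℕ) :
    K G (insert v S) (r + 1) = K G S (r + 1) + K G (nb G S v) r := by
  unfold K
  rw [powersetCard_succ_insert hv, filter_union, card_union_of_disjoint]
  · push_cast
    congr 1
    norm_cast
    rw [filter_image]
    rw [card_image_of_injOn]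
    · congr 1
      ext t
      simp only [mem_filter, mem_powersetCard]
      constructor
      · rintro ⟨⟨ht, htr⟩, hc⟩
        refine ⟨⟨?_, htr⟩, ?_⟩
        · intro x hx
          rw [mem_nb]
          refine ⟨ht hx, ?_⟩
          apply hc
          · simp
          · simp [hx]
          · rintro rfl
            exact hv (ht hx)
        · exact hc.subset (by simp)
      · rintro ⟨⟨ht, htr⟩, hc⟩
        refine ⟨⟨fun x hx => nb_subset G S v (ht hx), htr⟩, ?_⟩
        rw [coe_insert, SimpleGraph.isClique_insert]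
        refine ⟨hc, fun b hb _ => ?_⟩
        exact ((mem_nb G).1 (ht hb)).2
    · intro t ht t' ht' h
      simp only [coe_filter, mem_powersetCard, Set.mem_setOf_eq] at ht ht'
      have h1 : v ∉ t := fun h => hv (ht.1.1 h)
      have h2 : v ∉ t' := fun h => hv (ht'.1.1 h)
      rw [← erase_insert h1, ← erase_insert h2]
      rw [h]
  · rw [disjoint_left]
    intro t ht ht'
    simp only [mem_filter, mem_powersetCard, mem_image] at ht ht'
    obtain ⟨⟨a, ha, rfl⟩, -⟩ := ht'
    exact hv (ht.1.1 (mem_insert_self _ _))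

theorem K_erase {S : Finset V} {v : V} (hv : v ∈ S) (r : ℕ) :
    K G S (r + 1) = K G (S.erase v) (r + 1) + K G (nb G S v) r := by
  have h := K_insert G (notMem_erase v S) r
  rw [insert_erase hv] at h
  rw [h]
  congr 2
  ext x
  rw [mem_nb, mem_nb, mem_erase]
  constructor
  · rintro ⟨⟨h1, h2⟩, h3⟩; exact ⟨h2, h3⟩
  · rintro ⟨h1, h2⟩
    exact ⟨⟨fun h => by subst h; exact (G.loopless.irrefl _ h2), h1⟩, h2⟩

theorem K_one (S : Finset V) : K G S 1 = S.card := by
  induction S using Finset.induction_on with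
  | empty => rw [show (1 : ℕ) = 0 + 1 from rfl, K_empty]; simp
  | insert v S hv ih =>
    rw [show (1 : ℕ) = 0 + 1 from rfl, K_insert G hv, K_zero]
    rw [show (0 : ℕ) + 1 = 1 from rfl, ih, card_insert_of_notMem hv]
    push_cast; ring

theorem nb_nb (S : Finset V) (u v : V) : nb G (nb G S u) v = nb G S u ∩ nb G S v := by
  ext x
  rw [mem_nb, mem_inter, mem_nb, mem_nb]
  tauto

theorem nb_sdiff (S Q : Finset V) (v : V) : nb G (S \ Q) v = nb G S v \ Q := by
  ext x
  rw [mem_nb, mem_sdiff, mem_sdiff, mem_nb]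
  tauto

theorem nb_erase (S : Finset V) (u v : V) : nb G (S.erase u) v = (nb G S v).erase u := by
  ext x
  rw [mem_nb, mem_erase, mem_erase, mem_nb]
  tauto

/-! ### star deletion -/

theorem dst_adj (w : V) (Q : Finset V) (x y : V) :
    (dst G w Q).Adj x y ↔ G.Adj x y ∧ ¬ (x = w ∧ y ∈ Q) ∧ ¬ (y = w ∧ x ∈ Q) := Iff.rfl

theorem K_dst_of_notMem (w : V) (Q S : Finset V) (hw : w ∉ S) (r : ℕ) :
    K (dst G w Q) S r = K G S r := by
  apply K_congr
  intro x hx y hy
  rw [dst_adj]
  have h1 : x ≠ w := fun h => hw (h ▸ hx)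
  have h2 : y ≠ w := fun h => hw (h ▸ hy)
  tauto

theorem nb_dst_self (w : V) (Q S : Finset V) (hw : w ∉ Q ∨ w ∉ S ∨ True) :
    nb (dst G w Q) S w = nb G S w \ Q := by
  ext x
  rw [mem_nb, mem_sdiff, mem_nb, dst_adj]
  constructor
  · rintro ⟨h1, h2, h3, h4⟩
    exact ⟨⟨h1, h2⟩, fun h => h3 ⟨rfl, h⟩⟩
  · rintro ⟨⟨h1, h2⟩, h3⟩
    refine ⟨h1, h2, fun h => h3 h.2, ?_⟩
    rintro ⟨rfl, -⟩
    exact G.loopless.irrefl _ h2

/-- clique counts after a star deletion -/
theorem K_dst {S : Finset V} {w : V} (hw : w ∈ S) (Q : Finset V) (r : ℕ) :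
    K (dst G w Q) S (r + 1) = K G S (r + 1) - K G (nb G S w) r + K G (nb G S w \ Q) r := by
  rw [K_erase (dst G w Q) hw, K_erase G hw, nb_dst_self G w Q S (by simp),
    K_dst_of_notMem G w Q (S.erase w) (notMem_erase w S),
    K_dst_of_notMem G w Q (nb G S w \ Q)]
  · ring
  · intro h
    exact not_mem_nb_self G S w (sdiff_subset h)

/-- clique counts for `w` joined to `L \ Q` -/
theorem K_dst_insert {L : Finset V} {w : V} (hw : w ∉ L) (hL : ∀ x ∈ L, G.Adj w x)
    (Q : Finset V) (r : ℕ) :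
    K (dst G w Q) (insert w L) (r + 1) = K G L (r + 1) + K G (L \ Q) r := by
  rw [K_insert _ hw, K_dst_of_notMem G w Q L hw, nb_dst_self G w Q L (by simp)]
  have : nb G L w = L := by
    ext x; rw [mem_nb]; exact ⟨fun h => h.1, fun h => ⟨h, hL x h⟩⟩
  rw [this, K_dst_of_notMem G w Q]
  intro h
  exact hw (sdiff_subset h)

end Pool.Agent.Helper72.LSr
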