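import Pool.Agent.Helper72.LSr.CEDef

/-!
# Bounds for `con`, the identity (1') (pieces LR-T2)
-/

namespace Pool.Agent.Helper72.LSr

open Finset
open scoped Classical

variable {V : Type} {j : ℕ} {G : SimpleGraph V} {S : Finset V} {k A B : ℕ}

/-- (1'), multiplied by `D_w` -/
theorem id_one' {w : V} (hw : w ∈ S) (k A B j : ℕ) (f : V → ℕ) (hf : Set.InjOn f (NH G S w)) :
    Dv k (A + 1) B G S w * (- Phi k (A + 1) B (j + 2) G S + Phi k A B (j + 2) G (nb G S w)
      + Phi k A B (j + 1) G (nb G S w)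
      + ∑ u ∈ NH G S w, con k A B j G S u (Qf G (NH G S w) f u))
      + es k A B (j + 1) * ∑ u ∈ NH G S w, (Yv k (A + 1) B G S w * Dv k (A + 1) B G S u
        - Dv k (A + 1) B G S w * Yv k (A + 1) B G S u)
      = es k A B (j + 1) * Yv k (A + 1) B G S w * (Dv k (A + 1) B G S w - Yv k (A + 1) B G S w
        - rS k (A + 1) B G S - K G (NH G S w) 2) := by
  have h1 := id_one G S hw k A B j f hf
  have h2 := id_E2 G S hw k (A + 1) B
  rw [sum_sub_distrib, ← mul_sum, ← mul_sum]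
  linear_combination Dv k (A + 1) B G S w * h1
    + es k A B (j + 1) * Yv k (A + 1) B G S w * h2

/-- lower bound with `s ≥ 0` -/
theorem con_ge_min (th1 : ∀ n m, TH V (j + 1) n m) (hk : 1 ≤ k) {u : V} {Q : Finset V}
    (hu : u ∈ S) (hQ : Q ⊆ nb G S u) (hs : 0 ≤ sq k (A + 1) B G S u Q)
    (hE : Yv k (A + 1) B G S u ≤ Dv k (A + 1) B G S u) (hD : 0 ≤ Dv k (A + 1) B G S u) :
    es k A B (j + 1) * min (sq k (A + 1) B G S u Q) (Yv k (A + 1) B G S u)
      ≤ con k A B j G S u Q := by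
  have e1 := gS_nb_sdiff G S k A B hu hQ
  have e2 := MS_nb_sdiff G S k A B hQ
  have e3 := rS_eq (G := G) (S := nb G S u \ Q) k A B
  have hl := es_nonneg k A B (j + 1)
  have hq : (0 : ℤ) ≤ Q.card := by positivity
  unfold con
  by_cases hg : 0 ≤ gS k A B G (nb G S u \ Q)
  · have h1 := Phi_nonneg (i := j + 1) (G := G) (S := nb G S u \ Q) (fun m => th1 _ m) hk
      (by linarith) hg
    have h2 : min (sq k (A + 1) B G S u Q) (Yv k (A + 1) B G S u) ≤ sq k (A + 1) B G S u Q :=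
      min_le_left _ _
    have h3 := mul_le_mul_of_nonneg_left h2 hl
    linarith
  · push Not at hg
    have h1 := Phi_cheap (i := j + 1) (G := G) (S := nb G S u \ Q) (fun m => th1 _ m) hk
      (le_of_lt hg) (by linarith)
    have h2 : min (sq k (A + 1) B G S u Q) (Yv k (A + 1) B G S u) ≤ Yv k (A + 1) B G S u :=
      min_le_right _ _
    have h3 := mul_le_mul_of_nonneg_left h2 hl
    rw [e1] at h1
    linarith

/-- lower bound with `γ ≥ 0` -/
theorem con_ge_gam (th1 : ∀ n m, TH V (j + 1) n m) (hk : 1 ≤ k) {u : V} {Q : Finset V}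
    (hu : u ∈ S) (hQ : Q ⊆ nb G S u)
    (hc : ∀ x ∈ Q, K G (nb G S u ∩ nb G S x) (j + 1) ≤ es k (A + 1) B (j + 2))
    (hE : Yv k (A + 1) B G S u ≤ Dv k (A + 1) B G S u) (hD : 0 ≤ Dv k (A + 1) B G S u) :
    es k A B (j + 1) * min 0 (Yv k (A + 1) B G S u) ≤ con k A B j G S u Q := by
  rw [← gam_add G S k A B j hu hQ]
  have h1 := gam_ge G S k A B j hQ
  have h2 : 0 ≤ ∑ x ∈ Q, (es k (A + 1) B (j + 2) - K G (nb G S u ∩ nb G S x) (j + 1)) :=
    sum_nonneg (fun x hx => by have := hc x hx; linarith)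
  have hl := es_nonneg k A B (j + 1)
  have e1 := gS_nb G S k A B u
  have e2 := MS_nb G S k A B u
  have e3 := rS_nb G S k A B u
  have h3 : es k A B (j + 1) * min 0 (Yv k (A + 1) B G S u) ≤ Phi k A B (j + 1) G (nb G S u) := by
    by_cases hg : 0 ≤ Yv k (A + 1) B G S u
    · rw [min_eq_left hg, mul_zero]
      exact Phi_nonneg (fun m => th1 _ m) hk (by linarith) (by linarith)
    · push Not at hg
      rw [min_eq_right (le_of_lt hg)]
      have := Phi_cheap (i := j + 1) (G := G) (S := nb G S u) (fun m => th1 _ m) hk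
        (by linarith) (by linarith)
      rw [e1] at this
      linarith
  linarith

/-- (D4): `Y_v ≤ 0 → Y^r_v ≤ 0` -/
theorem Yr_nonpos (th1 : ∀ n m, TH V (j + 1) n m) (hk : 1 ≤ k) {v : V}
    (hY : Yv k (A + 1) B G S v ≤ 0) (hD : 0 ≤ Dv k (A + 1) B G S v) :
    Yr k (A + 1) B (j + 1) G S v ≤ 0 := by
  rw [Yr_eq]
  have e1 := gS_nb G S k A B v
  have e2 := MS_nb G S k A B v
  have := Phi_cheap (i := j + 1) (G := G) (S := nb G S v) (fun m => th1 _ m) hk
    (by linarith) (by linarith)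
  rw [e1] at this
  linarith

theorem Yr_nonpos' (th1 : ∀ n m, TH V (j + 1) n m) (hk : 1 ≤ k) (hAB : 1 ≤ A + B) {v : V}
    (hY : Yv k A B G S v ≤ 0) (hD : 0 ≤ Dv k A B G S v) :
    Yr k A B (j + 1) G S v ≤ 0 := by
  rcases A with _ | A
  · obtain ⟨B', rfl⟩ : ∃ B', B = B' + 1 := ⟨B - 1, by omega⟩
    rw [← Yr_sw]
    apply Yr_nonpos th1 (by omega)
    · rw [Yv_sw]; exact hY
    · rw [Dv_sw]; linarith
  · exact Yr_nonpos th1 hk hY hD

end Pool.Agent.Helper72.LSr
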