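import Pool.Agent.Helper72.LSr.Defs

/-!
# Numerical basics: the coefficients `es` and the line relations
-/

namespace Pool.Agent.Helper72.LSr

open Finset
open scoped Classical

theorem es_zero (k A B : ℕ) : es k A B 0 = 0 := by
  unfold es
  rw [mul_assoc, Polynomial.coeff_X_mul_zero]

theorem es_one (k A B : ℕ) : es k A B 1 = 1 := by
  unfold es
  rw [mul_assoc, show (1 : ℕ) = 0 + 1 from rfl, Polynomial.coeff_X_mul]
  simp [Polynomial.coeff_zero_eq_eval_zero]

theorem es_sA (k A B i : ℕ) : es k (A + 1) B (i + 1) = es k A B (i + 1) + k * es k A B i := by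
  unfold es
  have : (Polynomial.X * (1 + Polynomial.C (k : ℤ) * Polynomial.X) ^ (A + 1) *
      (1 + Polynomial.C ((k : ℤ) + 1) * Polynomial.X) ^ B)
      = (Polynomial.X * (1 + Polynomial.C (k : ℤ) * Polynomial.X) ^ A *
      (1 + Polynomial.C ((k : ℤ) + 1) * Polynomial.X) ^ B)
      + Polynomial.C (k : ℤ) * ((Polynomial.X * (1 + Polynomial.C (k : ℤ) * Polynomial.X) ^ A *
      (1 + Polynomial.C ((k : ℤ) + 1) * Polynomial.X) ^ B) * Polynomial.X) := by ring
  rw [this, Polynomial.coeff_add, Polynomial.coeff_C_mul, Polynomial.coeff_mul_X]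

theorem es_sB (k A B i : ℕ) : es k A (B + 1) (i + 1) = es k A B (i + 1) + (k + 1) * es k A B i := by
  unfold es
  have : (Polynomial.X * (1 + Polynomial.C (k : ℤ) * Polynomial.X) ^ A *
      (1 + Polynomial.C ((k : ℤ) + 1) * Polynomial.X) ^ (B + 1))
      = (Polynomial.X * (1 + Polynomial.C (k : ℤ) * Polynomial.X) ^ A *
      (1 + Polynomial.C ((k : ℤ) + 1) * Polynomial.X) ^ B)
      + Polynomial.C ((k : ℤ) + 1) * ((Polynomial.X * (1 + Polynomial.C (k : ℤ) * Polynomial.X) ^ A *
      (1 + Polynomial.C ((k : ℤ) + 1) * Polynomial.X) ^ B) * Polynomial.X) := by ring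
  rw [this, Polynomial.coeff_add, Polynomial.coeff_C_mul, Polynomial.coeff_mul_X]

theorem es_empty (k i : ℕ) : es k 0 0 (i + 2) = 0 := by
  unfold es
  rw [pow_zero, pow_zero, mul_one, mul_one, Polynomial.coeff_X]
  simp

theorem es_nonneg (k A B i : ℕ) : 0 ≤ es k A B i := by
  induction A generalizing i with
  | zero =>
    induction B generalizing i with
    | zero =>
      rcases i with _ | _ | i
      · rw [es_zero]
      · rw [es_one]; norm_num
      · rw [es_empty]
    | succ B ih =>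
      rcases i with _ | i
      · rw [es_zero]
      · rw [es_sB]
        have h1 := ih (i + 1)
        have h2 := ih i
        positivity
  | succ A ih =>
    rcases i with _ | i
    · rw [es_zero]
    · rw [es_sA]
      have h1 := ih (i + 1)
      have h2 := ih i
      positivity

theorem es_sw (k B i : ℕ) : es k 0 B i = es (k + 1) B 0 i := by
  unfold es
  push_cast
  simp only [pow_zero, mul_one]

theorem es_two (k A B : ℕ) : es k A B 2 = EE k A B := by
  unfold EE
  induction A with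
  | zero =>
    induction B with
    | zero => rw [show (2 : ℕ) = 0 + 2 from rfl, es_empty]; simp
    | succ B ih =>
      rw [show (2 : ℕ) = 1 + 1 from rfl, es_sB, es_one]
      norm_num at ih ⊢
      rw [ih]; ring
  | succ A ih =>
    rw [show (2 : ℕ) = 1 + 1 from rfl, es_sA, es_one]
    norm_num at ih ⊢
    rw [ih]; ring

theorem EE_sA (k A B : ℕ) : EE k (A + 1) B = EE k A B + k := by
  unfold EE; push_cast; ring

theorem EE_sB (k A B : ℕ) : EE k A (B + 1) = EE k A B + (k + 1) := by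
  unfold EE; push_cast; ring

theorem EE_nonneg (k A B : ℕ) : 0 ≤ EE k A B := by
  unfold EE; positivity

theorem EE_sw (k B : ℕ) : EE (k + 1) B 0 = EE k 0 B := by
  unfold EE; push_cast; ring

theorem es3_sA (k A B : ℕ) : es k (A + 1) B 3 = es k A B 3 + k * EE k A B := by
  rw [show (3 : ℕ) = 2 + 1 from rfl, es_sA, es_two]

theorem es3_sB (k A B : ℕ) : es k A (B + 1) 3 = es k A B 3 + (k + 1) * EE k A B := by
  rw [show (3 : ℕ) = 2 + 1 from rfl, es_sB, es_two]

theorem two_es3 (k A B : ℕ) :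
    2 * es k A B 3 = (EE k A B) ^ 2 - A * k ^ 2 - B * (k + 1) ^ 2 := by
  induction A with
  | zero =>
    induction B with
    | zero => rw [show (3 : ℕ) = 1 + 2 from rfl, es_empty]; simp [EE]
    | succ B ih =>
      rw [es3_sB, EE_sB]
      push_cast at ih ⊢
      linarith
  | succ A ih =>
    rw [es3_sA, EE_sA]
    push_cast at ih ⊢
    linarith

/-- `2 e_2 ≥ E² - (k+1) E` -/
theorem two_es3_ge (k A B : ℕ) :
    (EE k A B) ^ 2 - (k + 1) * EE k A B ≤ 2 * es k A B 3 := by
  rw [two_es3]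
  unfold EE
  have h1 : (0 : ℤ) ≤ A * k := by positivity
  nlinarith [h1]

/-- `2 e_2 ≤ E² - k E` -/
theorem two_es3_le (k A B : ℕ) :
    2 * es k A B 3 ≤ (EE k A B) ^ 2 - k * EE k A B := by
  rw [two_es3]
  unfold EE
  have h1 : (0 : ℤ) ≤ B * (k + 1) := by positivity
  nlinarith [h1]

/-- `e_j` grows with the number of parts -/
theorem es_le_sA (k A B i : ℕ) : es k A B i ≤ es k (A + 1) B i := by
  rcases i with _ | i
  · rw [es_zero, es_zero]
  · rw [es_sA]
    have h2 := es_nonneg k A B i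
    have : (0 : ℤ) ≤ k * es k A B i := by positivity
    linarith

/-- `e_j` grows when a part of size `k` gets size `k+1` -/
theorem es_low (k A B i : ℕ) :
    es k A (B + 1) (i + 1) = es k (A + 1) B (i + 1) + es k A B i := by
  rw [es_sA, es_sB]; ring

theorem es_le_low (k A B i : ℕ) : es k (A + 1) B i ≤ es k A (B + 1) i := by
  rcases i with _ | i
  · rw [es_zero, es_zero]
  · rw [es_low]
    have := es_nonneg k A B i
    linarith

/-! ### lines -/

theorem Vl_zero (k A B : ℕ) (n m : ℤ) : Vl k A B 0 n m = n := by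
  unfold Vl
  rw [show 0 + 2 = 2 from rfl, es_two, show 0 + 1 = 1 from rfl, es_one, es_zero]
  unfold nu; ring

theorem Vl_one (k A B : ℕ) (n m : ℤ) : Vl k A B 1 n m = m := by
  unfold Vl
  rw [show 1 + 2 = 3 from rfl, show 1 + 1 = 2 from rfl, es_two, es_one]
  unfold th; ring

theorem rho_add_gg (k A B : ℕ) (n m : ℤ) : rho k A B n m + gg k A B n m = Mm k A B n := by
  unfold rho gg Mm; ring

theorem nu_low (k A B : ℕ) (n : ℤ) : nu k A (B + 1) n = nu k (A + 1) B n - 1 := by
  unfold nu; rw [EE_sA, EE_sB]; ring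

theorem Mm_low (k A B : ℕ) (n : ℤ) : Mm k A (B + 1) n = Mm k (A + 1) B n + 1 := by
  unfold Mm; rw [nu_low]; ring

theorem th_low (k A B : ℕ) (n m : ℤ) :
    th k A (B + 1) n m = th k (A + 1) B n m - nu k (A + 1) B n + k + 1 := by
  unfold th nu; rw [es3_sA, es3_sB, EE_sA, EE_sB]; ring

theorem rho_low (k A B : ℕ) (n m : ℤ) :
    rho k A (B + 1) n m = rho k (A + 1) B n m + Mm k (A + 1) B n + 1 := by
  unfold rho Mm; rw [th_low, nu_low]; ring

theorem gg_low (k A B : ℕ) (n m : ℤ) : gg k A (B + 1) n m = - rho k (A + 1) B n m := by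
  unfold rho gg; rw [th_low, nu_low]; ring

theorem Vl_low (k A B j : ℕ) (n m : ℤ) :
    Vl k A (B + 1) (j + 1) n m
      = Vl k (A + 1) B (j + 1) n m + es k A B j * rho k (A + 1) B n m := by
  unfold Vl rho
  rw [th_low, nu_low]
  rw [show j + 1 + 2 = (j + 2) + 1 from rfl, show j + 1 + 1 = (j + 1) + 1 from rfl]
  rw [es_sA, es_sB, es_sA, es_sB, es_sA, es_sB]
  ring

theorem nu_sw (k B : ℕ) (n : ℤ) : nu (k + 1) B 0 n = nu k 0 B n := by
  unfold nu; rw [EE_sw]

theorem Mm_sw (k B : ℕ) (n : ℤ) : Mm (k + 1) B 0 n = Mm k 0 B n + 2 := by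
  unfold Mm; rw [nu_sw]; push_cast; ring

theorem th_sw (k B : ℕ) (n m : ℤ) : th (k + 1) B 0 n m = th k 0 B n m := by
  unfold th; rw [nu_sw, EE_sw, es_sw]

theorem rho_sw (k B : ℕ) (n m : ℤ) :
    rho (k + 1) B 0 n m = rho k 0 B n m + Mm k 0 B n + 2 := by
  unfold rho Mm; rw [th_sw, nu_sw]; push_cast; ring

theorem gg_sw (k B : ℕ) (n m : ℤ) : gg (k + 1) B 0 n m = - rho k 0 B n m := by
  unfold rho gg; rw [th_sw, nu_sw]; push_cast; ring

theorem Vl_sw (k B i : ℕ) (n m : ℤ) : Vl (k + 1) B 0 i n m = Vl k 0 B i n m := by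
  unfold Vl; rw [th_sw, nu_sw, es_sw, es_sw, es_sw]

theorem nu_drop (k A B : ℕ) (n : ℤ) : nu k A B n = nu k (A + 1) B n + k := by
  unfold nu; rw [EE_sA]; ring

theorem Mm_drop (k A B : ℕ) (n : ℤ) : Mm k A B n = Mm k (A + 1) B n - k := by
  unfold Mm; rw [nu_drop k A B n]; ring

theorem th_drop (k A B : ℕ) (n m : ℤ) :
    th k A B n m = th k (A + 1) B n m + k * nu k (A + 1) B n := by
  unfold th nu; rw [es3_sA, EE_sA]; ring

theorem gg_drop (k A B : ℕ) (n m : ℤ) : gg k A B n m = - th k (A + 1) B n m := by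
  unfold gg; rw [th_drop k A B n m, nu_drop k A B n]; ring

theorem Vl_drop (k A B j : ℕ) (n m : ℤ) :
    Vl k (A + 1) B (j + 1) n m
      = Vl k A B (j + 1) n m + k * th k (A + 1) B n m * es k A B j := by
  unfold Vl
  rw [th_drop k A B n m, nu_drop k A B n]
  rw [show j + 1 + 2 = (j + 2) + 1 from rfl, show j + 1 + 1 = (j + 1) + 1 from rfl]
  rw [es_sA, es_sA, es_sA]
  ring

/-- dependence on `m` -/
theorem Vl_sub (k A B i : ℕ) (n m x : ℤ) :
    Vl k A B i n (m - x) = Vl k A B i n m - x * es k A B i := by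
  unfold Vl th; ring

theorem rho_sub (k A B : ℕ) (n m x : ℤ) : rho k A B n (m - x) = rho k A B n m - x := by
  unfold rho th; ring

theorem gg_sub (k A B : ℕ) (n m x : ℤ) : gg k A B n (m - x) = gg k A B n m + x := by
  unfold gg th; ring

end Pool.Agent.Helper72.LSr
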