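import Pool.Agent.Helper72.LSr.NumDef
import Pool.Agent.Helper85.LSr.NumF

/-!
# Numerical lemmas of section 7 (pieces LR-F1 .. LR-F4). Denominators `k`, `D` cleared.
`Z = D - Y - ρ - mm`, `rm = max (-ρ) 0`, `ε = D - Y`, `J = k + 1 - D`.
-/

namespace Pool.Agent.Helper72.LSr

namespace NumH

variable {k M X D Y ρ mm : ℤ}

theorem two_le_k (h : NumH k M X D Y ρ mm) : 2 ≤ k := by
  apply Pool.Agent.Helper85.LSr.two_le_k <;> assumption

theorem far1 (h : NumH k M X D Y ρ mm) (Du : ℤ) (hDu : M + 2 ≤ 2 * Du) :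
    (k + 1) * (Y * (D - Y - ρ - mm) - max (-ρ) 0 * D) ≤ (k + 1) * Y * Du + k * (Du - 1) * D := by
  apply Pool.Agent.Helper85.LSr.far1 <;> assumption

theorem far2 (h : NumH k M X D Y ρ mm) (Du : ℤ) (hDu : M + 1 ≤ Du) :
    (k + 1) * (Y * (D - Y - ρ - mm) - max (-ρ) 0 * D) ≤ (k + 1) * Y * Du + k * (Du - 2) * D := by
  apply Pool.Agent.Helper85.LSr.far2 <;> assumption

theorem c3 (h : NumH k M X D Y ρ mm) :
    (k + 1) * (Y * (D - Y - ρ - mm) - max (-ρ) 0 * D) ≤ k * D * (D - Y) := by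
  apply Pool.Agent.Helper85.LSr.c3 <;> assumption

theorem xm1 (h : NumH k M X D Y ρ mm)
    (h0 : 0 < k * X * Y * D + (2 * k + 3) * Y * (D - Y - ρ - mm) - (3 * k + 3) * max (-ρ) 0 * D) :
    -1 ≤ X := by
  apply Pool.Agent.Helper85.LSr.xm1 <;> assumption

theorem nc4 (h : NumH k M X D Y ρ mm) (hX : -1 ≤ X) :
    k * D * (k + 1 - D) +
      (k * X * Y * D + (2 * k + 3) * Y * (D - Y - ρ - mm) - (3 * k + 3) * max (-ρ) 0 * D)
      ≤ k * D * (4 * (D - Y) + 1) := by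
  apply Pool.Agent.Helper85.LSr.nc4 <;> assumption

theorem fF (h : NumH k M X D Y ρ mm) (hX : -1 ≤ X) :
    k * X * Y * D + 3 * (k + 1) * Y * (D - Y - ρ - mm) - (4 * k + 3) * max (-ρ) 0 * D
      ≤ k * (D - 1) * D := by
  apply Pool.Agent.Helper85.LSr.fF <;> assumption

theorem h1 (h : NumH k M X D Y ρ mm) (hX : X = 1) :
    (2 * k + 3) * Y * (D - Y - ρ - mm) - (3 * k + 3) * max (-ρ) 0 * D ≤ k * (D - Y - 1) * D := by
  apply Pool.Agent.Helper85.LSr.h1 <;> assumption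

theorem h2 (h : NumH k M X D Y ρ mm) (hX : X = 1) :
    k * Y * D + (2 * k + 3) * Y * (D - Y - ρ - mm) - (3 * k + 3) * max (-ρ) 0 * D
      ≤ 2 * k * D * (D - Y) := by
  apply Pool.Agent.Helper85.LSr.h2 <;> assumption

theorem h3 (h : NumH k M X D Y ρ mm) (hX : X = 1) :
    k * D * (k + 1 - D) +
      (k * Y * D + (2 * k + 3) * Y * (D - Y - ρ - mm) - (3 * k + 3) * max (-ρ) 0 * D)
      ≤ k * D * (2 * (D - Y) + 1) := by
  apply Pool.Agent.Helper85.LSr.h3 <;> assumption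

theorem mm_le (h : NumH k M X D Y ρ mm) : mm ≤ k := by
  apply Pool.Agent.Helper85.LSr.mm_le <;> assumption

end NumH

end Pool.Agent.Helper72.LSr
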