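import Pool.Agent.Helper72.LSr.T1

/-!
# Structures: minimal counterexample `CE`, line hypotheses `QH`, main lemma hypotheses `ML`
-/

namespace Pool.Agent.Helper72.LSr

open Finset
open scoped Classical

/-- a minimal counterexample (section 3), line `T = (A,B)_k`, `r = j + 3` -/
structure CE (V : Type) (j : ℕ) (G : SimpleGraph V) (S : Finset V) (k A B : ℕ) : Prop where
  hk : 1 ≤ k
  hAB : 1 ≤ A + B
  th0 : ∀ n m, TH V j n m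
  th1 : ∀ n m, TH V (j + 1) n m
  th2 : ∀ n m, n < S.card → TH V (j + 2) n m
  hM0 : ∀ x ∈ S, ∀ y ∈ S, G.Adj x y →
    K G (nb G S x ∩ nb G S y) (j + 1) + 1 ≤ es k A B (j + 2)
  hP : Phi k A B (j + 2) G S ≤ -1
  hM : MS k A B S ≤ k
  hr : 1 ≤ rS k A B G S
  hg : 0 ≤ gS k A B G S

/-- hypotheses of (QL) for the line `(A+1,B)_k`, `r = j + 3` -/
structure QH (V : Type) (j : ℕ) (G : SimpleGraph V) (S : Finset V) (k A B : ℕ) : Prop where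
  hk : 1 ≤ k
  th1 : ∀ n m, TH V (j + 1) n m
  th2 : ∀ n m, n < S.card → TH V (j + 2) n m
  hc : ∀ x ∈ S, ∀ y ∈ S, G.Adj x y →
    K G (nb G S x ∩ nb G S y) (j + 1) ≤ es k (A + 1) B (j + 2)
  hP : Phi k (A + 1) B (j + 2) G S ≤ -1
  hD : ∀ v ∈ S, 1 ≤ Dv k (A + 1) B G S v
  hM : 0 ≤ MS k (A + 1) B S
  hr : 1 ≤ rS k (A + 1) B G S

/-- hypotheses of the main lemma (section 6) for the line `(A+1,B)_k`, `r = j + 3` -/
structure ML (V : Type) (j : ℕ) (G : SimpleGraph V) (S : Finset V) (k A B : ℕ) (w : V) : Prop where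
  hk : 1 ≤ k
  th1 : ∀ n m, TH V (j + 1) n m
  th2 : ∀ n m, n < S.card → TH V (j + 2) n m
  hQ : 1 + es k A B (j + 1) * max (-(rS k (A + 1) B G S)) 0 ≤ - Phi k (A + 1) B (j + 2) G S
  hD : ∀ v ∈ S, 1 ≤ Dv k (A + 1) B G S v
  hE : ∀ v ∈ S, Yv k (A + 1) B G S v + 1 ≤ Dv k (A + 1) B G S v
  hc : ∀ u ∈ S, ∀ v ∈ S, G.Adj u v → 0 ≤ cv k (A + 1) B G S u v
  hw : w ∈ S
  hmax : ∀ v ∈ S, Yv k (A + 1) B G S v * Dv k (A + 1) B G S w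
    ≤ Yv k (A + 1) B G S w * Dv k (A + 1) B G S v
  hY : 1 + max (-(rS k (A + 1) B G S)) 0 ≤ Yv k (A + 1) B G S w
  hX : Dv k (A + 1) B G S w ≤ MS k (A + 1) B S + 1
  hcase : (1 ≤ rS k (A + 1) B G S ∧ MS k (A + 1) B S ≤ k) ∨
    (rS k (A + 1) B G S ≤ 0 ∧ MS k (A + 1) B S ≤ k - 1)
  h5 : ∀ v ∈ S, Yv k (A + 1) B G S v < 0 →
    (- Yv k (A + 1) B G S v ≤ Dv k (A + 1) B G S v - 2 ∨
      MS k (A + 1) B S + 1 ≤ Dv k (A + 1) B G S v)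

end Pool.Agent.Helper72.LSr
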