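import Mathlib

/-!
# The Lovász–Simonovits conjecture for all `r`: definitions

Everything is `ℤ`-valued. Levels are shifted: `es k A B (j+1)` is the number of `j`-cliques of the
complete multipartite graph `T = (A,B)_k` with `A` parts of size `k` and `B` parts of size `k+1`,
and `es k A B 0 = 0`; `Vl k A B i n m` is the value of the line of `T` for the number of
`(i+1)`-cliques.
-/

namespace Pool.Agent.Helper72.LSr

open Finset
open scoped Classical

noncomputable section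

/-- `es k A B (j+1) = [x^j] (1+kx)^A (1+(k+1)x)^B`, `es k A B 0 = 0`. -/
def es (k A B i : ℕ) : ℤ :=
  (Polynomial.X * (1 + Polynomial.C (k : ℤ) * Polynomial.X) ^ A *
    (1 + Polynomial.C ((k : ℤ) + 1) * Polynomial.X) ^ B).coeff i

/-- number of vertices of `T` -/
def EE (k A B : ℕ) : ℤ := A * k + B * (k + 1)

/-- `ν = n - E` -/
def nu (k A B : ℕ) (n : ℤ) : ℤ := n - EE k A B

/-- `θ = m - e_2 - ν E` -/
def th (k A B : ℕ) (n m : ℤ) : ℤ := m - es k A B 3 - nu k A B n * EE k A B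

/-- `ρ` -/
def rho (k A B : ℕ) (n m : ℤ) : ℤ := th k A B n m - (k + 1) * (nu k A B n - k - 1)

/-- `g` -/
def gg (k A B : ℕ) (n m : ℤ) : ℤ := k * (nu k A B n - k) - th k A B n m

/-- `M = ρ + g` -/
def Mm (k A B : ℕ) (n : ℤ) : ℤ := 2 * k + 1 - nu k A B n

/-- value of the line of `T` for the number of `(i+1)`-cliques -/
def Vl (k A B i : ℕ) (n m : ℤ) : ℤ :=
  es k A B (i + 2) + nu k A B n * es k A B (i + 1) + th k A B n m * es k A B i

/-! ### Graph counts inside a finite set `S` of vertices -/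

variable {V : Type}

/-- number of `r`-cliques of `G` inside `S` -/
def K (G : SimpleGraph V) (S : Finset V) (r : ℕ) : ℤ :=
  (((S.powersetCard r).filter (fun t : Finset V => G.IsClique (t : Set V))).card : ℤ)

/-- neighbours of `v` inside `S` -/
def nb (G : SimpleGraph V) (S : Finset V) (v : V) : Finset V := S.filter (fun x => G.Adj v x)

/-- delete the edges from `w` to `Q` -/
def dst (G : SimpleGraph V) (w : V) (Q : Finset V) : SimpleGraph V where
  Adj x y := G.Adj x y ∧ ¬ (x = w ∧ y ∈ Q) ∧ ¬ (y = w ∧ x ∈ Q)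
  symm := ⟨fun _ _ h => ⟨h.1.symm, h.2.2, h.2.1⟩⟩
  loopless := ⟨fun _ h => h.1.ne rfl⟩

/-- `Φ^{i+1}_T` of the graph induced on `S` -/
def Phi (k A B i : ℕ) (G : SimpleGraph V) (S : Finset V) : ℤ :=
  K G S (i + 1) - Vl k A B i S.card (K G S 2)

/-- `ρ` of the graph induced on `S` -/
def rS (k A B : ℕ) (G : SimpleGraph V) (S : Finset V) : ℤ := rho k A B S.card (K G S 2)

/-- `g` of the graph induced on `S` -/
def gS (k A B : ℕ) (G : SimpleGraph V) (S : Finset V) : ℤ := gg k A B S.card (K G S 2)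

/-- `M` of `S` -/
def MS (k A B : ℕ) (S : Finset V) : ℤ := Mm k A B S.card

/-- `D_v = E + k + 1 - d_v` -/
def Dv (k A B : ℕ) (G : SimpleGraph V) (S : Finset V) (v : V) : ℤ :=
  EE k A B + k + 1 - (nb G S v).card

/-- `Y_v = e_2 + E (d_v - E) - e(N_v)` -/
def Yv (k A B : ℕ) (G : SimpleGraph V) (S : Finset V) (v : V) : ℤ :=
  es k A B 3 + EE k A B * ((nb G S v).card - EE k A B) - K G (nb G S v) 2

/-- `Y^{i+2}_v`, so that `Φ^{i+2}(G-v) = Φ^{i+2}(G) + Y^{i+2}_v` -/
def Yr (k A B i : ℕ) (G : SimpleGraph V) (S : Finset V) (v : V) : ℤ :=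
  es k A B (i + 2) + es k A B (i + 1) * ((nb G S v).card - EE k A B) - K G (nb G S v) (i + 1)

/-- `c_uv = E - |N_u ∩ N_v|` -/
def cv (k A B : ℕ) (G : SimpleGraph V) (S : Finset V) (u v : V) : ℤ :=
  EE k A B - ((nb G S u ∩ nb G S v).card : ℤ)

/-- non-neighbours of `w` in `S`, without `w` -/
def NH (G : SimpleGraph V) (S : Finset V) (w : V) : Finset V :=
  S.filter (fun x => ¬ G.Adj w x ∧ x ≠ w)

/-- `Q_y = N_w \ N_y` -/
def Qs (G : SimpleGraph V) (S : Finset V) (w y : V) : Finset V :=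
  S.filter (fun x => G.Adj w x ∧ ¬ G.Adj y x)

/-- neighbours of `u` inside `R` that come before `u` in the ordering `f` -/
def Qf (G : SimpleGraph V) (R : Finset V) (f : V → ℕ) (u : V) : Finset V :=
  R.filter (fun x => G.Adj u x ∧ f x < f u)

/-- `s_u(Q) = Σ_{x ∈ Q} c_ux + e(G[Q])` -/
def sq (k A B : ℕ) (G : SimpleGraph V) (S : Finset V) (u : V) (Q : Finset V) : ℤ :=
  ∑ x ∈ Q, cv k A B G S u x + K G Q 2

/-- `con_u(Q)`, for `T = (A+1,B)_k` and `r = j+3` -/
def con (k A B j : ℕ) (G : SimpleGraph V) (S : Finset V) (u : V) (Q : Finset V) : ℤ :=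
  es k A B (j + 1) * sq k (A + 1) B G S u Q + Phi k A B (j + 1) G (nb G S u \ Q)

/-- `γ_u(Q)`, for `T = (A+1,B)_k` and `r = j+3` -/
def gam (k A B j : ℕ) (G : SimpleGraph V) (S : Finset V) (u : V) (Q : Finset V) : ℤ :=
  es k (A + 1) B (j + 2) * Q.card - (K G (nb G S u) (j + 2) - K G (nb G S u \ Q) (j + 2))

/-- `a(Q) = e_{r-2}(T) - k_{r-2}(N_w \ Q)`, for `T = (A+1,B)_k` and `r = j+3` -/
def aa (k A B j : ℕ) (G : SimpleGraph V) (S : Finset V) (w : V) (Q : Finset V) : ℤ :=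
  es k (A + 1) B (j + 2) - K G (nb G S w \ Q) (j + 1)

/-- the statement of the theorem for `(i+1)`-cliques, `n` vertices, at the edge number `m` -/
def TH (V : Type) (i : ℕ) (n m : ℤ) : Prop :=
  ∀ (G : SimpleGraph V) (S : Finset V), (S.card : ℤ) = n → m ≤ K G S 2 →
    ∀ k A B : ℕ, 1 ≤ k → 0 ≤ rho k A B n m → 0 ≤ gg k A B n m → Vl k A B i n m ≤ K G S (i + 1)

end

end Pool.Agent.Helper72.LSr
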