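import Pool.Agent.Helper72.LSr.FDef
import Pool.Agent.Helper72.LSr.N1
import Pool.Agent.Helper72.LSr.C0
import Pool.Agent.Helper72.LSr.E2j
import Pool.Agent.Helper79.LSr.E2b
import Pool.Agent.Helper77.LSr.E1

/-!
# The graphs that attain the bound, all `r` (pieces LR-E1 .. LR-E4)
-/

namespace Pool.Agent.Helper72.LSr

open Finset
open scoped Classical

/-! ### LR-E1 -/

theorem form_bip (a b m : ℕ) (ha : 1 ≤ a) (hm : m ≤ a * b) :
    ∃ (W : Type) (_ : Fintype W) (Γ : SimpleGraph W), Fintype.card W = a + b ∧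
      K Γ univ 2 = m ∧ (∀ r, K Γ univ (r + 3) = 0) ∧ PartiteForm Γ := by
  apply Pool.Agent.Helper77.LSr.form_bip <;> assumption

/-! ### LR-E2 -/

theorem form_join {V : Type} [Fintype V] (G : SimpleGraph V) (hG : PartiteForm G) (s : ℕ)
    (hs : 1 ≤ s) :
    ∃ (W : Type) (_ : Fintype W) (Γ : SimpleGraph W), Fintype.card W = Fintype.card V + s ∧
      (∀ r, K Γ univ (r + 1) = K G univ (r + 1) + s * K G univ r) ∧ PartiteForm Γ := by
  apply Pool.Agent.Helper72.LSr.E2j.form_join <;> assumption

theorem PartiteForm.comap {V W : Type} {G : SimpleGraph V} (hG : PartiteForm G) (e : W ≃ V) :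
    PartiteForm (G.comap e) := by
  apply Pool.Agent.Helper79.LSr.PartiteForm.comap <;> assumption

theorem partiteForm_bot {V : Type} [Nonempty V] : PartiteForm (⊥ : SimpleGraph V) := by
  apply Pool.Agent.Helper79.LSr.partiteForm_bot <;> assumption

theorem numK_eq {V : Type} [Fintype V] (G : SimpleGraph V) (r : ℕ) :
    (numK r G : ℤ) = K G univ r := by
  apply Pool.Agent.Helper79.LSr.numK_eq <;> assumption

theorem ncard_edgeSet {V : Type} [Fintype V] (G : SimpleGraph V) :
    (G.edgeSet.ncard : ℤ) = K G univ 2 := by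
  apply Pool.Agent.Helper79.LSr.ncard_edgeSet <;> assumption

theorem K_comap {V W : Type} [Fintype V] [Fintype W] (G : SimpleGraph V) (e : W ≃ V) (r : ℕ) :
    K (G.comap e) univ r = K G univ r := by
  apply Pool.Agent.Helper79.LSr.K_comap <;> assumption

theorem numK_bot {V : Type} (r : ℕ) (hr : 2 ≤ r) : numK r (⊥ : SimpleGraph V) = 0 := by
  apply Pool.Agent.Helper79.LSr.numK_bot <;> assumption

end Pool.Agent.Helper72.LSr
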