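import Pool.Agent.Helper72.LSr.E1
import Pool.Agent.Helper82.LSr.E3
import Pool.Agent.Helper67.LSr.E4

/-!
# The graphs that attain the bound, all `r` (pieces LR-E3, LR-E4)
-/

namespace Pool.Agent.Helper72.LSr

open Finset
open scoped Classical

/-! ### LR-E3 -/

/-- join with a part of size `k` -/
theorem Vl_joinA (k A B i : ℕ) (n m : ℤ) :
    Vl k (A + 1) B (i + 1) (n + k) (m + k * n) = Vl k A B (i + 1) n m + k * Vl k A B i n m := by
  apply Pool.Agent.Helper82.LSr.Vl_joinA <;> assumption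

theorem Vl_joinB (k A B i : ℕ) (n m : ℤ) :
    Vl k A (B + 1) (i + 1) (n + (k + 1)) (m + (k + 1) * n)
      = Vl k A B (i + 1) n m + (k + 1) * Vl k A B i n m := by
  apply Pool.Agent.Helper82.LSr.Vl_joinB <;> assumption

/-- every valid line with `M ≤ k` is attained -/
theorem form_line (k A B n : ℕ) (m : ℤ) (hk : 1 ≤ k) (hM : Mm k A B n ≤ k)
    (hr : 0 ≤ rho k A B n m) (hg : 0 ≤ gg k A B n m) :
    ∃ (W : Type) (_ : Fintype W) (Γ : SimpleGraph W), Fintype.card W = n ∧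
      (∀ i, K Γ univ (i + 1) = Vl k A B i n m) ∧ PartiteForm Γ := by
  apply Pool.Agent.Helper82.LSr.form_line <;> assumption

/-! ### LR-E4 -/

/-- every `(n, m)` has a valid line with `M ≤ k` -/
theorem exists_valid (n m : ℕ) (hm1 : 1 ≤ m) (hm : m ≤ n.choose 2) :
    ∃ k A B : ℕ, 1 ≤ k ∧ Mm k A B n ≤ k ∧ 0 ≤ rho k A B n m ∧ 0 ≤ gg k A B n m := by
  apply Pool.Agent.Helper67.LSr.exists_valid <;> assumption

end Pool.Agent.Helper72.LSr
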