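import Pool.Agent.Helper72.LSr.Defs

/-!
# Definitions of the final statement
-/

namespace Pool.Agent.Helper72.LSr

open Finset
open scoped Classical

/-- the number of copies of `K_r` in `G` -/
noncomputable def numK {V : Type} (r : ℕ) (G : SimpleGraph V) : ℕ :=
  {s : Finset V | G.IsNClique r s}.ncard

/-- partite-plus-triangle-free form: a complete partite graph with at least one part and a
triangle-free graph added inside one part -/
def PartiteForm {V : Type} (G : SimpleGraph V) : Prop :=
  ∃ (K : ℕ) (c : V → Fin K) (i : Fin K), Function.Surjective c ∧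
    (∀ u v, c u ≠ c v → G.Adj u v) ∧ (∀ u v, G.Adj u v → c u = c v → c u = i) ∧
    (G.induce {v | c v = i}).CliqueFree 3

end Pool.Agent.Helper72.LSr
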