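import Pool.Agent.Helper72.LSr.N1
import Pool.Agent.Helper72.LSr.C1
import Pool.Agent.Helper2.LSr.I1
import Pool.Agent.Helper93.LSr.I2
import Pool.Agent.Helper78.LSr.I3
import Pool.Agent.Helper54.LSr.I4
import Pool.Agent.Helper44.LSr.I5
import Pool.Agent.Helper15.LSr.LRI6
import Pool.Agent.Helper75.LSr.I8
import Pool.Agent.Helper50.LSr.I9
import Pool.Agent.Helper64.LSr.I10
import Pool.Agent.Helper49.LSr.I7

/-!
# Vertex identities (pieces LR-I1 .. LR-I6)
-/

namespace Pool.Agent.Helper72.LSr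

open Finset
open scoped Classical

variable {V : Type} (G : SimpleGraph V) (S : Finset V)

/-! ### LR-I1: deletion of a vertex, neighbourhoods -/

theorem Phi_erase (k A B i : ℕ) {v : V} (hv : v ∈ S) :
    Phi k A B (i + 1) G (S.erase v) = Phi k A B (i + 1) G S + Yr k A B i G S v := by
  apply Pool.Agent.Helper2.LSr.Phi_erase <;> assumption

theorem rS_erase (k A B : ℕ) {v : V} (hv : v ∈ S) :
    rS k A B G (S.erase v) = rS k A B G S + Dv k A B G S v := by
  apply Pool.Agent.Helper2.LSr.rS_erase <;> assumption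

theorem gS_erase (k A B : ℕ) {v : V} (hv : v ∈ S) :
    gS k A B G (S.erase v) = gS k A B G S - (Dv k A B G S v - 1) := by
  apply Pool.Agent.Helper2.LSr.gS_erase <;> assumption

theorem gS_nb (k A B : ℕ) (v : V) : gS k A B G (nb G S v) = Yv k (A + 1) B G S v := by
  apply Pool.Agent.Helper2.LSr.gS_nb <;> assumption

theorem MS_nb (k A B : ℕ) (v : V) : MS k A B (nb G S v) = Dv k (A + 1) B G S v := by
  apply Pool.Agent.Helper2.LSr.MS_nb <;> assumption

theorem rS_nb (k A B : ℕ) (v : V) :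
    rS k A B G (nb G S v) = Dv k (A + 1) B G S v - Yv k (A + 1) B G S v := by
  apply Pool.Agent.Helper2.LSr.rS_nb <;> assumption

theorem Yr_eq (k A B j : ℕ) (v : V) :
    Yr k (A + 1) B (j + 1) G S v
      = es k A B (j + 1) * Yv k (A + 1) B G S v - Phi k A B (j + 1) G (nb G S v) := by
  apply Pool.Agent.Helper2.LSr.Yr_eq <;> assumption

/-! ### LR-I2: change of line -/

theorem Dv_low (k A B : ℕ) (v : V) : Dv k A (B + 1) G S v = Dv k (A + 1) B G S v + 1 := by
  apply Pool.Agent.Helper93.LSr.Dv_low <;> assumption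

theorem Yv_low (k A B : ℕ) (v : V) :
    Yv k A (B + 1) G S v = Yv k (A + 1) B G S v - Dv k (A + 1) B G S v := by
  apply Pool.Agent.Helper93.LSr.Yv_low <;> assumption

theorem cv_low (k A B : ℕ) (u v : V) :
    cv k A (B + 1) G S u v = cv k (A + 1) B G S u v + 1 := by
  apply Pool.Agent.Helper93.LSr.cv_low <;> assumption

theorem MS_low (k A B : ℕ) : MS k A (B + 1) S = MS k (A + 1) B S + 1 := by
  apply Pool.Agent.Helper93.LSr.MS_low <;> assumption

theorem rS_low (k A B : ℕ) :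
    rS k A (B + 1) G S = rS k (A + 1) B G S + MS k (A + 1) B S + 1 := by
  apply Pool.Agent.Helper93.LSr.rS_low <;> assumption

theorem gS_low (k A B : ℕ) : gS k A (B + 1) G S = - rS k (A + 1) B G S := by
  apply Pool.Agent.Helper93.LSr.gS_low <;> assumption

theorem Phi_low (k A B j : ℕ) :
    Phi k A (B + 1) (j + 1) G S = Phi k (A + 1) B (j + 1) G S - es k A B j * rS k (A + 1) B G S := by
  apply Pool.Agent.Helper93.LSr.Phi_low <;> assumption

theorem Dv_sw (k B : ℕ) (v : V) : Dv (k + 1) B 0 G S v = Dv k 0 B G S v + 1 := by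
  apply Pool.Agent.Helper93.LSr.Dv_sw <;> assumption

theorem Yv_sw (k B : ℕ) (v : V) : Yv (k + 1) B 0 G S v = Yv k 0 B G S v := by
  apply Pool.Agent.Helper93.LSr.Yv_sw <;> assumption

theorem cv_sw (k B : ℕ) (u v : V) : cv (k + 1) B 0 G S u v = cv k 0 B G S u v := by
  apply Pool.Agent.Helper93.LSr.cv_sw <;> assumption

theorem MS_sw (k B : ℕ) : MS (k + 1) B 0 S = MS k 0 B S + 2 := by
  apply Pool.Agent.Helper93.LSr.MS_sw <;> assumption

theorem rS_sw (k B : ℕ) : rS (k + 1) B 0 G S = rS k 0 B G S + MS k 0 B S + 2 := by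
  apply Pool.Agent.Helper93.LSr.rS_sw <;> assumption

theorem gS_sw (k B : ℕ) : gS (k + 1) B 0 G S = - rS k 0 B G S := by
  apply Pool.Agent.Helper93.LSr.gS_sw <;> assumption

theorem Phi_sw (k B i : ℕ) : Phi (k + 1) B 0 i G S = Phi k 0 B i G S := by
  apply Pool.Agent.Helper93.LSr.Phi_sw <;> assumption

theorem Yr_sw (k B i : ℕ) (v : V) : Yr (k + 1) B 0 i G S v = Yr k 0 B i G S v := by
  apply Pool.Agent.Helper93.LSr.Yr_sw <;> assumption

theorem rS_add_gS (k A B : ℕ) : rS k A B G S + gS k A B G S = MS k A B S := by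
  apply Pool.Agent.Helper93.LSr.rS_add_gS <;> assumption

/-! ### LR-I3: identities around `w`, degrees -/

variable {w : V} (hw : w ∈ S)

include hw

theorem card_NH (k A B : ℕ) :
    ((NH G S w).card : ℤ) = k - 1 + Dv k A B G S w - MS k A B S := by
  apply Pool.Agent.Helper78.LSr.card_NH <;> assumption

theorem id_E2 (k A B : ℕ) :
    ∑ u ∈ NH G S w, Dv k A B G S u + Dv k A B G S w
      = (k + 1) * Dv k A B G S w - Yv k A B G S w - rS k A B G S - K G (NH G S w) 2 := by
  apply Pool.Agent.Helper78.LSr.id_E2 <;> assumption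

theorem id_E4 (k A B : ℕ) :
    ∑ y ∈ NH G S w, ((Qs G S w y).card : ℤ) - K G (NH G S w) 2
      = (1 - (Dv k A B G S w - MS k A B S)) * Dv k A B G S w - Yv k A B G S w
        - rS k A B G S := by
  apply Pool.Agent.Helper78.LSr.id_E4 <;> assumption

/-! ### LR-I4: level 3 identity -/

/-- local form -/
theorem id_Y (k A B : ℕ) {u : V} (hu : u ∈ NH G S w) :
    Yv k A B G S u = Yv k A B G S w - sq k A B G S w (Qs G S w u)
      + sq k A B G S u (nb G (NH G S w) u) := by
  apply Pool.Agent.Helper54.LSr.id_Y <;> assumption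

omit hw in
theorem sum_sq (k A B : ℕ) (f : V → ℕ) (hf : Set.InjOn f (NH G S w)) :
    ∑ u ∈ NH G S w, sq k A B G S u (nb G (NH G S w) u)
      = 2 * ∑ u ∈ NH G S w, sq k A B G S u (Qf G (NH G S w) f u) + K G (NH G S w) 3 := by
  apply Pool.Agent.Helper54.LSr.sum_sq <;> assumption

theorem id_G3 (k A B : ℕ) (f : V → ℕ) (hf : Set.InjOn f (NH G S w)) :
    ∑ y ∈ NH G S w, sq k A B G S w (Qs G S w y)
      = (Dv k A B G S w - MS k A B S) * Yv k A B G S w
        + 2 * ∑ u ∈ NH G S w, sq k A B G S u (Qf G (NH G S w) f u) + K G (NH G S w) 3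
        - (∑ u ∈ NH G S w, Yv k A B G S u + Yv k A B G S w - k * Yv k A B G S w) := by
  apply Pool.Agent.Helper54.LSr.id_G3 <;> assumption

/-! ### LR-I5: the identity (G) -/

omit hw in
theorem gS_nb_sdiff (k A B : ℕ) {u : V} {Q : Finset V} (hu : u ∈ S) (hQ : Q ⊆ nb G S u) :
    gS k A B G (nb G S u \ Q) = Yv k (A + 1) B G S u - sq k (A + 1) B G S u Q := by
  apply Pool.Agent.Helper44.LSr.gS_nb_sdiff <;> assumption

omit hw in
theorem MS_nb_sdiff (k A B : ℕ) {u : V} {Q : Finset V} (hQ : Q ⊆ nb G S u) :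
    MS k A B (nb G S u \ Q) = Dv k (A + 1) B G S u + Q.card := by
  apply Pool.Agent.Helper44.LSr.MS_nb_sdiff <;> assumption

omit hw in
theorem gam_add (k A B j : ℕ) {u : V} {Q : Finset V} (hu : u ∈ S) (hQ : Q ⊆ nb G S u) :
    gam k A B j G S u Q + Phi k A B (j + 1) G (nb G S u) = con k A B j G S u Q := by
  apply Pool.Agent.Helper44.LSr.gam_add <;> assumption

omit hw in
theorem gam_ge (k A B j : ℕ) {u : V} {Q : Finset V} (hQ : Q ⊆ nb G S u) :
    ∑ x ∈ Q, (es k (A + 1) B (j + 2) - K G (nb G S u ∩ nb G S x) (j + 1))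
      ≤ gam k A B j G S u Q := by
  apply Pool.Agent.Helper44.LSr.gam_ge <;> assumption

/-! ### LR-I6: the identity (1) -/

theorem id_one (k A B j : ℕ) (f : V → ℕ) (hf : Set.InjOn f (NH G S w)) :
    - Phi k (A + 1) B (j + 2) G S + Phi k A B (j + 2) G (nb G S w)
      + Phi k A B (j + 1) G (nb G S w)
      + ∑ u ∈ NH G S w, con k A B j G S u (Qf G (NH G S w) f u)
      = es k A B (j + 1) * (∑ u ∈ NH G S w, Yv k (A + 1) B G S u
          + Yv k (A + 1) B G S w - k * Yv k (A + 1) B G S w) := by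
  apply Pool.Agent.Helper15.LSr.id_one <;> assumption

/-! ### LR-I7: the inequality (2) -/

theorem id_two_le (k A B j : ℕ) (f : V → ℕ) (hf : Set.InjOn f (NH G S w)) :
    Phi k A B (j + 2) G (nb G S w) + k * Phi k A B (j + 1) G (nb G S w)
      - (Dv k (A + 1) B G S w - MS k (A + 1) B S) *
          (es k A B (j + 1) * Yv k (A + 1) B G S w - Phi k A B (j + 1) G (nb G S w))
      + ∑ y ∈ NH G S w, gam k A B j G S w (Qs G S w y)
      - ∑ y ∈ NH G S w, ∑ y' ∈ Qf G (NH G S w) f y,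
          aa k A B j G S w (Qs G S w y ∪ Qs G S w y')
      ≤ Phi k (A + 1) B (j + 2) G S := by
  apply Pool.Agent.Helper49.LSr.id_two_le <;> assumption

/-! ### LR-I8: splitting off the last vertex, cardinalities -/

theorem con_split (k A B j : ℕ) {y y' : V} (hy : y ∈ NH G S w) (hy' : y' ∈ NH G S w)
    (hadj : G.Adj y' y) :
    con k A B j G S y' (nb G (NH G S w) y')
      = aa k A B j G S w (Qs G S w y ∪ Qs G S w y')
        + con k A B j G S y' ((nb G (NH G S w) y').erase y) := by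
  apply Pool.Agent.Helper75.LSr.con_split <;> assumption

theorem card_Q_union (k A B : ℕ) {y y' : V} (hy : y ∈ NH G S w) (hy' : y' ∈ NH G S w)
    (hadj : G.Adj y y') :
    (((Qs G S w y ∪ Qs G S w y').card : ℕ) : ℤ)
      = (k + 1 - Dv k A B G S w) + cv k A B G S y y'
        + ((nb G (NH G S w) y ∩ nb G (NH G S w) y').card : ℤ) := by
  apply Pool.Agent.Helper75.LSr.card_Q_union <;> assumption

theorem card_Z (k A B : ℕ) (x : V) :
    (((nb G S w \ nb G S x).card : ℕ) : ℤ)
      = (k + 1 - Dv k A B G S w) + cv k A B G S w x := by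
  apply Pool.Agent.Helper75.LSr.card_Z <;> assumption

omit hw in
theorem aa_mono (k A B j : ℕ) {Q Q' : Finset V} (h : Q ⊆ Q') :
    aa k A B j G S w Q ≤ aa k A B j G S w Q' := by
  apply Pool.Agent.Helper75.LSr.aa_mono <;> assumption

omit hw in
theorem aa_Z (k A B j : ℕ) (x : V) :
    aa k A B j G S w (nb G S w \ nb G S x)
      = es k (A + 1) B (j + 2) - K G (nb G S w ∩ nb G S x) (j + 1) := by
  apply Pool.Agent.Helper75.LSr.aa_Z <;> assumption

/-! ### LR-I9: the graph `G_Q` (`w` joined to `N_w \ Q`) -/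

omit hw in
theorem x1_gS (k A B : ℕ) {Q : Finset V} (hQ : Q ⊆ nb G S w) :
    gS k A B (dst G w Q) (insert w (nb G S w))
      = Yv k (A + 1) B G S w + (Q.card - (k + 1 - Dv k (A + 1) B G S w)) := by
  apply Pool.Agent.Helper50.LSr.x1_gS <;> assumption

omit hw in
theorem x1_rS (k A B : ℕ) {Q : Finset V} (hQ : Q ⊆ nb G S w) :
    rS k A B (dst G w Q) (insert w (nb G S w))
      = Dv k (A + 1) B G S w - Yv k (A + 1) B G S w - 1
        - (Q.card - (k + 1 - Dv k (A + 1) B G S w)) := by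
  apply Pool.Agent.Helper50.LSr.x1_rS <;> assumption

omit hw in
theorem x1_Phi (k A B j : ℕ) {Q : Finset V} (hQ : Q ⊆ nb G S w) :
    Phi k A B (j + 2) (dst G w Q) (insert w (nb G S w))
      = Phi k A B (j + 2) G (nb G S w) + Phi k A B (j + 1) G (nb G S w)
        + gam k A B j G S w Q
        - k * es k A B (j + 1) * (Q.card - (k + 1 - Dv k (A + 1) B G S w))
        - es k A B (j + 1) * Yv k (A + 1) B G S w := by
  apply Pool.Agent.Helper50.LSr.x1_Phi <;> assumption

omit hw in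
theorem x1_Phi' (k A B j : ℕ) {Q : Finset V} (hQ : Q ⊆ nb G S w) :
    Phi k A B (j + 1) (dst G w Q) (insert w (nb G S w))
      = Phi k A B (j + 1) G (nb G S w)
        + es k A B (j + 1) * (Q.card - (k + 1 - Dv k (A + 1) B G S w))
        - aa k A B j G S w Q := by
  apply Pool.Agent.Helper50.LSr.x1_Phi' <;> assumption

/-! ### LR-I10: the sum of all `Y^r_v` if `B = 0`, and the sum of `M + 1 - D_v` -/

omit hw in
theorem id_zero (k A j : ℕ) :
    ∑ v ∈ S, Yr k (A + 1) 0 (j + 1) G S v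
      = (A + 1) * k * es k A 0 (j + 1) * gS k (A + 1) 0 G S
        - (j + 3) * Phi k (A + 1) 0 (j + 2) G S := by
  apply Pool.Agent.Helper64.LSr.id_zero <;> assumption

omit hw in
theorem id_sumD (k A B : ℕ) :
    ∑ v ∈ S, (MS k A B S + 1 - Dv k A B G S v)
      = A * k + (k - MS k A B S) * (MS k A B S + 1) + 2 * rS k A B G S := by
  apply Pool.Agent.Helper64.LSr.id_sumD <;> assumption

end Pool.Agent.Helper72.LSr
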