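import Pool.Agent.Helper72.LSr.S6d

/-!
# Section 6: piece LR-M8
-/

namespace Pool.Agent.Helper72.LSr.M8

open Finset
open scoped Classical
open Pool.Agent.Helper72.LSr

variable {V : Type} {j : ℕ} {G : SimpleGraph V} {S : Finset V} {k A B : ℕ} {w : V}

theorem mem_Qs' {y x : V} : x ∈ Qs G S w y ↔ x ∈ S ∧ G.Adj w x ∧ ¬ G.Adj y x := by
  unfold Qs; rw [mem_filter]

/-- the numerical core: `c ≤ c'`, `c + c' ≤ G3` is contradictory -/
theorem no_cross_num {k M D Y ρ m lm Q P κ G3 c c' e K' : ℤ}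
    (hN : NumH k M (D - M) D Y ρ m) (hX : D = M + 1) (hlm : 1 ≤ lm)
    (hQ : 1 + lm * max (-ρ) 0 ≤ Q) (hP : 0 ≤ P) (hκ : 0 ≤ κ) (hcc : c ≤ c') (hG : c + c' ≤ G3)
    (hc' : c' ≤ G3)
    (hEB : k * D * lm * G3 ≤ k * lm * (D - M) * Y * D + (2 * k + 3) * lm * Y * (D - Y - ρ - m)
      - (3 * k + 3) * D * (Q + P + κ))
    (hU : c ≤ D - Y - 1 → e - K' ≤ κ + lm * c)
    (hE : (k + 1 - D) + c' ≤ 2 * (D - Y) → (D - 1 - c') * lm - (e - K') - 2 * κ ≤ P) : False := by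
  have hk := hN.hk
  have hX1 : D - M = 1 := by linarith
  have n1 := hN.h1 hX1
  have n2 := hN.h2 hX1
  have n3 := hN.h3 hX1
  have hD : 1 ≤ D := by
    have h1 := hN.hY
    have h2 := hN.hε
    have h3 := le_max_right (-ρ) 0
    linarith
  rw [hX1] at hEB
  obtain ⟨r, hr⟩ : ∃ r, r = max (-ρ) 0 := ⟨_, rfl⟩
  rw [← hr] at n1 n2 n3 hQ
  obtain ⟨Z, hZ⟩ : ∃ Z, Z = D - Y - ρ - m := ⟨_, rfl⟩
  rw [← hZ] at n1 n2 n3 hEB
  have hkD : 0 < k * D := by positivity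
  have hk3 : 0 < (3 * k + 3) * D := by positivity
  -- `k D lm G3 ≤ lm (...) - (3k+3) D - (3k+3) D (P + κ)`
  have f0 : (3 * k + 3) * D * (1 + lm * r) ≤ (3 * k + 3) * D * Q :=
    mul_le_mul_of_nonneg_left hQ hk3.le
  have f1 : 0 ≤ (3 * k + 3) * D * P := mul_nonneg hk3.le hP
  have f2 : 0 ≤ (3 * k + 3) * D * κ := mul_nonneg hk3.le hκ
  have g2 := mul_le_mul_of_nonneg_left n2 (by linarith : (0 : ℤ) ≤ lm)
  have g3 := mul_le_mul_of_nonneg_left n3 (by linarith : (0 : ℤ) ≤ lm)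
  have g1 := mul_le_mul_of_nonneg_left n1 (by linarith : (0 : ℤ) ≤ lm)
  have hkl : 0 < k * D * lm := by positivity
  -- `G3 < 2 ε`
  have b1 : G3 < 2 * (D - Y) := by
    have : k * D * lm * G3 < k * D * lm * (2 * (D - Y)) := by nlinarith
    exact lt_of_mul_lt_mul_left this hkl.le
  have b2 : (k + 1 - D) + c' ≤ 2 * (D - Y) := by
    have h1 : k * D * lm * c' ≤ k * D * lm * G3 := mul_le_mul_of_nonneg_left hc' hkl.le
    have : k * D * lm * ((k + 1 - D) + c') < k * D * lm * (2 * (D - Y) + 1) := by nlinarith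
    have := lt_of_mul_lt_mul_left this hkl.le
    linarith
  have b3 := hU (by linarith)
  have b4 := hE b2
  have b5 : (D - 1 - G3) * lm ≤ P + 3 * κ := by
    have h1 : 0 ≤ (G3 - (c + c')) * lm := mul_nonneg (by linarith) (by linarith)
    nlinarith
  have b6 := mul_le_mul_of_nonneg_left b5 hkD.le
  have f3 : 0 ≤ k * D * P := mul_nonneg hkD.le hP
  have f4 : 0 ≤ D * P := mul_nonneg (by linarith) hP
  have f5 : 0 ≤ D * κ := mul_nonneg (by linarith) hκ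
  nlinarith

theorem no_cross_aux (h : ML V j G S k A B w) (hm : 1 ≤ (K G (NH G S w) 2)) (hX : (Dv k (A + 1) B G S) w = (MS k (A + 1) B S) + 1) {y y' : V}
    (hy : y ∈ NH G S w) (hy' : y' ∈ NH G S w) (hne : y ≠ y') {x x' : V}
    (hx : x ∈ Qs G S w y) (hx' : x' ∈ Qs G S w y') (hadj : G.Adj x x')
    (hc : (cv k (A + 1) B G S) w x ≤ (cv k (A + 1) B G S) w x') : False := by
  obtain ⟨hL1, hL2⟩ := ml_L h
  obtain ⟨hM1, hM2, hM3⟩ := ml_main h
  have hxn : x ∈ nb G S w := by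
    rw [mem_nb]; exact ⟨((mem_Qs').1 hx).1, ((mem_Qs').1 hx).2.1⟩
  have hxn' : x' ∈ nb G S w := by
    rw [mem_nb]; exact ⟨((mem_Qs').1 hx').1, ((mem_Qs').1 hx').2.1⟩
  exact no_cross_num (ml_num h hm) hX hM2 h.hQ hL1 hL2 hc
    (ml_c_add_le h hy hx hy' hx' hne) (ml_c_le h hy' hx') (ml_EB h hm) (ml_U h hxn)
    (fun hh => ml_edge h hxn hxn' hadj 2 (by push_cast; exact hh))

theorem ml_no_cross (h : ML V j G S k A B w) (hm : 1 ≤ (K G (NH G S w) 2)) (hX : (Dv k (A + 1) B G S) w = (MS k (A + 1) B S) + 1) {y y' : V}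
    (hy : y ∈ NH G S w) (hy' : y' ∈ NH G S w) (hne : y ≠ y') :
    ∀ x ∈ Qs G S w y \ Qs G S w y', ∀ x' ∈ Qs G S w y' \ Qs G S w y, ¬ G.Adj x x' := by
  intro x hx x' hx' hadj
  rw [mem_sdiff] at hx hx'
  rcases le_total ((cv k (A + 1) B G S) w x) ((cv k (A + 1) B G S) w x') with hc | hc
  · exact no_cross_aux h hm hX hy hy' hne hx.1 hx'.1 hadj hc
  · exact no_cross_aux h hm hX hy' hy hne.symm hx'.1 hx.1 hadj.symm hc

end Pool.Agent.Helper72.LSr.M8
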