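import Pool.Agent.Helper72.LSr.S6e

/-!
# Piece LR-M9: the case `X_w = 1` of the main lemma
-/

namespace Pool.Agent.Helper72.LSr.M9

open Finset
open scoped Classical
open Pool.Agent.Helper72.LSr

variable {V : Type} {j : ℕ} {G : SimpleGraph V} {S : Finset V} {k A B : ℕ} {w : V}

theorem Qs_subset (y : V) : Qs G S w y ⊆ nb G S w := by
  intro x hx
  unfold Qs at hx
  rw [mem_filter] at hx
  rw [mem_nb]
  exact ⟨hx.1, hx.2.1⟩

theorem mem_Qf {R : Finset V} {f : V → ℕ} {u x : V} :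
    x ∈ Qf G R f u ↔ x ∈ R ∧ G.Adj u x ∧ f x < f u := by
  unfold Qf
  rw [mem_filter]

theorem gam_add_gam {y y' : V}
    (hc : ∀ x ∈ Qs G S w y \ Qs G S w y', ∀ x' ∈ Qs G S w y' \ Qs G S w y, ¬ G.Adj x x') :
    gam k A B j G S w (Qs G S w y) + gam k A B j G S w (Qs G S w y')
      = gam k A B j G S w (Qs G S w y ∪ Qs G S w y')
        + gam k A B j G S w (Qs G S w y ∩ Qs G S w y') := by
  have h1 := K_sdiff_union_of_no_cross G (nb G S w) (Qs G S w y) (Qs G S w y') hc (j + 2)
  have h2 : ((Qs G S w y).card : ℤ) + (Qs G S w y').card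
      = ((Qs G S w y ∪ Qs G S w y').card : ℤ) + ((Qs G S w y ∩ Qs G S w y').card : ℤ) := by
    exact_mod_cast (card_union_add_card_inter _ _).symm
  unfold gam
  linear_combination es k (A + 1) B (j + 2) * h2 - h1

/-- the case `X_w = 1` -/
theorem ml_one (h : ML V j G S k A B w) (hX : Dv k (A + 1) B G S w = MS k (A + 1) B S + 1) :
    False := by
  obtain ⟨f, hf, -⟩ := exists_order (NH G S w) (fun _ => (0 : ℤ))
  have h2 := id_two_le G S h.hw k A B j f hf
  obtain ⟨hPL, hkap⟩ := ml_L h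
  obtain ⟨-, hlam, hZ⟩ := ml_main h
  have hE4 := id_E4 G S h.hw k (A + 1) B
  have hcard := card_NH G S h.hw k (A + 1) B
  have hmm : K G (NH G S w) 2 = ∑ y ∈ NH G S w, ((Qf G (NH G S w) f y).card : ℤ) := by
    rw [show (2 : ℕ) = 1 + 1 from rfl, K_last G (NH G S w) f hf 1]
    exact sum_congr rfl fun y _ => K_one G _
  have hQ := h.hQ
  have hY := h.hY
  have hrm : 0 ≤ max (-(rS k (A + 1) B G S)) 0 := le_max_right _ _
  have hrm' : -(rS k (A + 1) B G S) ≤ max (-(rS k (A + 1) B G S)) 0 := le_max_left _ _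
  have hlrm : 0 ≤ es k A B (j + 1) * max (-(rS k (A + 1) B G S)) 0 :=
    mul_nonneg (by linarith) hrm
  have hone : Dv k (A + 1) B G S w - MS k (A + 1) B S = 1 := by linarith
  rw [hone] at hE4 h2
  have hq0 : (0 : ℤ) ≤ ∑ y ∈ NH G S w, ((Qs G S w y).card : ℤ) :=
    sum_nonneg fun _ _ => by positivity
  have hm : 1 ≤ K G (NH G S w) 2 := by linarith
  have hmk : K G (NH G S w) 2 ≤ k := NumH.mm_le (ml_num h hm)
  -- the maximal edge
  have hex : ∃ y ∈ NH G S w, (Qf G (NH G S w) f y).Nonempty := by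
    by_contra hno
    push Not at hno
    have : K G (NH G S w) 2 = 0 := by
      rw [hmm]
      apply sum_eq_zero
      intro y hy
      rw [hno y hy]
      simp
    linarith
  obtain ⟨y0, hy0, y0', hy0'⟩ := hex
  have hne : (((NH G S w) ×ˢ (NH G S w)).filter
      (fun p : V × V => p.2 ∈ Qf G (NH G S w) f p.1)).Nonempty :=
    ⟨(y0, y0'), by
      rw [mem_filter, mem_product]
      exact ⟨⟨hy0, (mem_Qf.1 hy0').1⟩, hy0'⟩⟩
  obtain ⟨p, hp1, hp2⟩ := exists_max_image _
    (fun p : V × V => aa k A B j G S w (Qs G S w p.1 ∪ Qs G S w p.2)) hne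
  rw [mem_filter, mem_product] at hp1
  obtain ⟨y, y'⟩ := p
  simp only at hp1 hp2
  obtain ⟨⟨hy, hy'⟩, hyy⟩ := hp1
  have hadj : G.Adj y y' := (mem_Qf.1 hyy).2.1
  have hneq : y ≠ y' := hadj.ne
  set a := aa k A B j G S w (Qs G S w y ∪ Qs G S w y') with ha
  have hmax : ∀ y ∈ NH G S w, ∀ y' ∈ Qf G (NH G S w) f y,
      aa k A B j G S w (Qs G S w y ∪ Qs G S w y') ≤ a := by
    intro z hz z' hz'
    exact hp2 (z, z') (by
      rw [mem_filter, mem_product]
      exact ⟨⟨hz, (mem_Qf.1 hz').1⟩, hz'⟩)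
  have hs1 : ∑ y ∈ NH G S w, ∑ y' ∈ Qf G (NH G S w) f y,
      aa k A B j G S w (Qs G S w y ∪ Qs G S w y') ≤ K G (NH G S w) 2 * a := by
    rw [hmm, sum_mul]
    apply sum_le_sum
    intro z hz
    have h1 := sum_le_sum (fun z' hz' => hmax z hz z' hz')
    rw [sum_const, nsmul_eq_mul] at h1
    exact h1
  -- no cross edges
  have hcross := ml_no_cross h hm hX hy hy' hneq
  have hmod := gam_add_gam (k := k) (A := A) (B := B) (j := j) hcross
  have hsubU : Qs G S w y ∪ Qs G S w y' ⊆ nb G S w := union_subset (Qs_subset y) (Qs_subset y')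
  have hsubI : Qs G S w y ∩ Qs G S w y' ⊆ nb G S w := inter_subset_left.trans (Qs_subset y)
  -- the graph `G_Q`
  have htB := ml_tB h hm hy hy' hadj
  have hU := card_Q_union G S h.hw k (A + 1) B hy hy' hadj
  have hyS : y ∈ S := (mem_filter.1 hy).1
  have hy'S : y' ∈ S := (mem_filter.1 hy').1
  have hc0 := h.hc y hyS y' hy'S hadj
  have hcn : (0 : ℤ) ≤ ((nb G (NH G S w) y ∩ nb G (NH G S w) y').card : ℤ) := by positivity
  set t : ℤ := ((Qs G S w y ∪ Qs G S w y').card : ℤ) - (k + 1 - Dv k (A + 1) B G S w) with ht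
  have ht0 : 0 ≤ t := by rw [ht]; linarith
  have e1 := x1_gS G S k A B hsubU
  have e2 := x1_rS G S k A B hsubU
  have e3 := x1_Phi G S k A B j hsubU
  have e4 := x1_Phi' G S k A B j hsubU
  rw [← ht] at e1 e2 e3 e4
  have hlt : (insert w (nb G S w)).card < S.card := by
    apply card_lt_card
    rw [ssubset_iff_of_subset (insert_subset h.hw (nb_subset G S w))]
    refine ⟨y, hyS, ?_⟩
    intro hmem
    rw [mem_insert, mem_nb] at hmem
    have h3 := (mem_filter.1 hy).2
    rcases hmem with h4 | h4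
    · exact h3.2 h4
    · exact h3.1 h4.2
  have hP2 : 0 ≤ Phi k A B (j + 2) (dst G w (Qs G S w y ∪ Qs G S w y'))
      (insert w (nb G S w)) :=
    Phi_nonneg (fun m => h.th2 _ m hlt) h.hk (by rw [e2]; linarith) (by rw [e1]; linarith)
  have hP1 : 0 ≤ Phi k A B (j + 1) (dst G w (Qs G S w y ∪ Qs G S w y'))
      (insert w (nb G S w)) :=
    Phi_nonneg (fun m => h.th1 _ m) h.hk (by rw [e2]; linarith) (by rw [e1]; linarith)
  rw [e3] at hP2
  rw [e4] at hP1
  have hk0 : (0 : ℤ) ≤ k := by positivity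
  -- splitting the sum
  have hsum : ∑ z ∈ NH G S w, gam k A B j G S w (Qs G S w z)
      = gam k A B j G S w (Qs G S w y) + (gam k A B j G S w (Qs G S w y')
        + ∑ z ∈ ((NH G S w).erase y).erase y', gam k A B j G S w (Qs G S w z)) := by
    rw [add_sum_erase ((NH G S w).erase y) (fun z => gam k A B j G S w (Qs G S w z))
      (mem_erase.2 ⟨hneq.symm, hy'⟩),
      add_sum_erase (NH G S w) (fun z => gam k A B j G S w (Qs G S w z)) hy]
  rw [hsum] at h2
  by_cases hpos : 0 < a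
  · have hstep : ∀ x ∈ nb G S w,
        a ≤ es k (A + 1) B (j + 2) - K G (nb G S w ∩ nb G S x) (j + 1) := fun x hx =>
      ml_step1 h hm hy hy' hadj hpos hx
    have hgam : ∀ R ⊆ nb G S w, 0 ≤ gam k A B j G S w R := by
      intro R hR
      have h1 := gam_ge G S k A B j hR
      have h3 : 0 ≤ ∑ x ∈ R, (es k (A + 1) B (j + 2) - K G (nb G S w ∩ nb G S x) (j + 1)) :=
        sum_nonneg fun x hx => by have := hstep x (hR hx); linarith
      linarith
    have h5 := hgam _ hsubI
    have h6 : 0 ≤ ∑ z ∈ ((NH G S w).erase y).erase y', gam k A B j G S w (Qs G S w z) :=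
      sum_nonneg fun z _ => hgam _ (Qs_subset z)
    have h7 : K G (NH G S w) 2 * a ≤ k * a := mul_le_mul_of_nonneg_right hmk hpos.le
    have h8 := mul_nonneg hk0 hP1
    linarith
  · push Not at hpos
    have h5 := ml_gam h hsubI
    have h6 : ∑ _z ∈ ((NH G S w).erase y).erase y', (- Phi k A B (j + 1) G (nb G S w))
        ≤ ∑ z ∈ ((NH G S w).erase y).erase y', gam k A B j G S w (Qs G S w z) :=
      sum_le_sum fun z _ => ml_gam h (Qs_subset z)
    have hc2 : ((((NH G S w).erase y).erase y').card : ℤ) = k - 2 := by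
      have h9 : y' ∈ (NH G S w).erase y := mem_erase.2 ⟨hneq.symm, hy'⟩
      have h10 := card_erase_add_one h9
      have h11 := card_erase_add_one hy
      have h12 : ((((NH G S w).erase y).erase y').card : ℤ) + 1 + 1 = (NH G S w).card := by
        exact_mod_cast (by omega : (((NH G S w).erase y).erase y').card + 1 + 1 = (NH G S w).card)
      linarith
    rw [sum_const, nsmul_eq_mul, hc2] at h6
    have h7 : K G (NH G S w) 2 * a ≤ 0 :=
      mul_nonpos_of_nonneg_of_nonpos (by linarith) hpos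
    have h8 : 0 ≤ k * (es k A B (j + 1) * t) :=
      mul_nonneg hk0 (mul_nonneg (by linarith) ht0)
    linarith

end Pool.Agent.Helper72.LSr.M9
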