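import Pool.Agent.Helper72.LSr.N1
import Pool.Agent.Helper62.LSr.NegStep

/-!
# Numerical lemmas on lines with `ν ≤ k` (pieces LR-N1, LR-N2)
-/

namespace Pool.Agent.Helper72.LSr

open Finset
open scoped Classical

/-- (NEG) a valid line with `ν ≤ k` is dominated by a valid line with one part less -/
theorem neg_step (k A B : ℕ) (hk : 1 ≤ k) (hAB : 1 ≤ A + B) (n m : ℤ)
    (hr : 0 ≤ rho k A B n m) (hg : 0 ≤ gg k A B n m) (hnu : nu k A B n ≤ k) :
    ∃ k' A' B' : ℕ, 1 ≤ k' ∧ A' + B' + 1 = A + B ∧ 0 ≤ rho k' A' B' n m ∧ 0 ≤ gg k' A' B' n m ∧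
      ∀ i, Vl k A B (i + 1) n m ≤ Vl k' A' B' (i + 1) n m := by
  apply Pool.Agent.Helper62.LSr.neg_step <;> assumption

end Pool.Agent.Helper72.LSr
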