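import Pool.Agent.Helper72.LSr.N2
import Pool.Agent.Helper91.LSr.N2

/-!
# NUM0 (piece LR-N2)
-/

namespace Pool.Agent.Helper72.LSr

open Finset
open scoped Classical

/-- (NUM0) valid lines are nonpositive for `m ≤ 0` -/
theorem num0 (k A B : ℕ) (hk : 1 ≤ k) (n m : ℤ) (hm : m ≤ 0)
    (hr : 0 ≤ rho k A B n m) (hg : 0 ≤ gg k A B n m) (i : ℕ) :
    Vl k A B (i + 1) n m ≤ 0 := by
  apply Pool.Agent.Helper91.LSr.num0 <;> assumption

end Pool.Agent.Helper72.LSr
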