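import Mathlib

/-!
# Numerical lemmas of section 7 (definition). Denominators `k`, `D` cleared.
`Z = D - Y - ρ - mm`, `rm = max (-ρ) 0`, `ε = D - Y`, `J = k + 1 - D`.
-/

namespace Pool.Agent.Helper72.LSr

/-- the numerical situation of the main lemma -/
structure NumH (k M X D Y ρ mm : ℤ) : Prop where
  hk : 1 ≤ k
  hD : D = M + X
  hX : X ≤ 1
  hY : 1 + max (-ρ) 0 ≤ Y
  hε : Y + 1 ≤ D
  hcase : (1 ≤ ρ ∧ M ≤ k) ∨ (ρ ≤ 0 ∧ M ≤ k - 1)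
  hm : 1 ≤ mm
  hZ : 1 + max (-ρ) 0 ≤ D - Y - ρ - mm
  hJ : k + 1 - D ≤ mm + (1 - X) * D - Y - ρ

end Pool.Agent.Helper72.LSr
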