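import Pool.Agent.Helper72.LSr.CEDef
import Pool.Agent.Helper51.LSr.S3a
import Pool.Agent.Helper52.LSr.S3b
import Pool.Agent.Helper30.LSr.S3c

/-!
# Section 3: (CL), (M1) (pieces LR-S3a .. LR-S3c)
-/

namespace Pool.Agent.Helper72.LSr

open Finset
open scoped Classical

variable {V : Type} {j : ℕ} {G : SimpleGraph V} {S : Finset V} {k A B : ℕ}

/-! ### LR-S3a -/

theorem mindeg_delete (k A B : ℕ) (hk : 1 ≤ k) (G : SimpleGraph V) (b : ℕ) (N : Finset V)
    (hN : (N.card : ℤ) = EE k A B + b)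
    (he : 2 * es k A B 3 + 2 * b * (EE k A B - k) + b * (b + 1) ≤ 2 * K G N 2) :
    ∃ N' : Finset V, N' ⊆ N ∧ (N'.card : ℤ) = EE k A B ∧ es k A B 3 ≤ K G N' 2 := by
  apply Pool.Agent.Helper51.LSr.mindeg_delete <;> assumption

theorem clique_ge_EE (k A B : ℕ) (hk : 1 ≤ k) (hAB : 1 ≤ A + B) (th0 : ∀ n m, TH V j n m)
    (G : SimpleGraph V) (N : Finset V) (hN : (N.card : ℤ) = EE k A B)
    (he : es k A B 3 ≤ K G N 2) : es k A B (j + 2) ≤ K G N (j + 1) := by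
  apply Pool.Agent.Helper51.LSr.clique_ge_EE <;> assumption

/-! ### LR-S3b -/

/-- (CL): `x` has the largest degree inside `N_w` and `c_wx = -b ≤ 0` -/
theorem cl (h : CE V j G S k A B) {w x : V} (hw : w ∈ S) (hx : x ∈ nb G S w)
    (hmax : ∀ y ∈ nb G S w, cv k A B G S w x ≤ cv k A B G S w y)
    (hc : cv k A B G S w x ≤ 0) :
    -2 * cv k A B G S w x * (Dv k A B G S w - 1) + cv k A B G S w x * (cv k A B G S w x + 1)
      < 2 * Yv k A B G S w :=
  Pool.Agent.Helper52.LSr.cl_aux (fun k A B hk G b N => mindeg_delete k A B hk G b N)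
    (fun k A B hk hAB th0 G N => clique_ge_EE k A B hk hAB th0 G N) h hw hx hmax hc

theorem cl_a (h : CE V j G S k A B) {w : V} (hw : w ∈ S) (hD : 1 ≤ Dv k A B G S w)
    (hY : Yv k A B G S w ≤ Dv k A B G S w - 1) : ∀ x ∈ nb G S w, 0 ≤ cv k A B G S w x :=
  Pool.Agent.Helper52.LSr.cl_a_aux (fun k A B hk G b N => mindeg_delete k A B hk G b N)
    (fun k A B hk hAB th0 G N => clique_ge_EE k A B hk hAB th0 G N) h hw hD hY

theorem cl_b (h : CE V j G S k A B) {w : V} (hw : w ∈ S) (hD : 1 ≤ Dv k A B G S w)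
    (hY : Yv k A B G S w ≤ 0) : ∀ x ∈ nb G S w, 1 ≤ cv k A B G S w x :=
  Pool.Agent.Helper52.LSr.cl_b_aux (fun k A B hk G b N => mindeg_delete k A B hk G b N)
    (fun k A B hk hAB th0 G N => clique_ge_EE k A B hk hAB th0 G N) h hw hD hY

theorem cl_c (h : CE V j G S k A B) {w : V} (hw : w ∈ S) (t : ℤ) (ht : 0 ≤ t)
    (hD : Dv k A B G S w = -t) (hY : Yv k A B G S w ≤ -(t + 1) ^ 2) :
    ∀ x ∈ nb G S w, 1 ≤ cv k A B G S w x :=
  Pool.Agent.Helper52.LSr.cl_c_aux (fun k A B hk G b N => mindeg_delete k A B hk G b N)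
    (fun k A B hk hAB th0 G N => clique_ge_EE k A B hk hAB th0 G N) h hw t ht hD hY

/-! ### LR-S3c -/

/-- (M1) -/
theorem all_D_pos (h : CE V j G S k A B) : ∀ v ∈ S, 1 ≤ Dv k A B G S v :=
  Pool.Agent.Helper30.LSr.all_D_pos (fun hw t ht hD hY => cl_c h hw t ht hD hY) h

end Pool.Agent.Helper72.LSr
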