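import Pool.Agent.Helper72.LSr.S3
import Pool.Agent.Helper72.LSr.T2
import Pool.Agent.Helper23.LSr.S4

/-!
# Section 4: (QL), the last line, (H5) (pieces LR-S4a .. LR-S4c)
-/

namespace Pool.Agent.Helper72.LSr

open Finset
open scoped Classical

variable {V : Type} {j : ℕ} {G : SimpleGraph V} {S : Finset V} {k A B : ℕ}

/-- (QL) -/
theorem ql (h : QH V j G S k A B)
    (hE : ∀ v ∈ S, Yv k (A + 1) B G S v ≤ Dv k (A + 1) B G S v) {w : V} (hw : w ∈ S)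
    (hmax : ∀ v ∈ S, Yv k (A + 1) B G S v * Dv k (A + 1) B G S w
      ≤ Yv k (A + 1) B G S w * Dv k (A + 1) B G S v)
    (hY : 1 ≤ Yv k (A + 1) B G S w) :
    1 ≤ Dv k (A + 1) B G S w - Yv k (A + 1) B G S w - rS k (A + 1) B G S - K G (NH G S w) 2 ∧
    Dv k (A + 1) B G S w ≤ MS k (A + 1) B S + 1 ∧ 0 ≤ gS k (A + 1) B G S := by
  apply Pool.Agent.Helper23.LSr.ql <;> assumption

/-- the last line with some `Y_v ≥ 1` -/
theorem last_line (N : ℕ) : ∀ k A B : ℕ, QH V j G S k A B →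
    (∀ v ∈ S, Yv k (A + 1) B G S v ≤ N) → (∃ v ∈ S, 1 ≤ Yv k (A + 1) B G S v) →
    0 ≤ gS k (A + 1) B G S ∧ ∀ v ∈ S, Yv k (A + 1) B G S v + 1 ≤ Dv k (A + 1) B G S v := by
  apply Pool.Agent.Helper23.LSr.last_line <;> assumption

/-- (H5), `B ≥ 1` -/
theorem h5_B (h : CE V j G S k (A + 1) (B + 1)) (v : V) (hv : v ∈ S)
    (hY : Yv k (A + 1) (B + 1) G S v ≤ 0) :
    - Yv k (A + 1) (B + 1) G S v ≤ Dv k (A + 1) (B + 1) G S v - 2 ∨
      MS k (A + 1) (B + 1) S + 1 ≤ Dv k (A + 1) (B + 1) G S v := by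
  apply Pool.Agent.Helper23.LSr.h5_B <;> assumption

/-- (H5), `B = 0` -/
theorem h5_zero (h : CE V j G S k (A + 1) 0) (hk : 2 ≤ k) (v : V) (hv : v ∈ S)
    (hY : Yv k (A + 1) 0 G S v ≤ 0) :
    - Yv k (A + 1) 0 G S v ≤ Dv k (A + 1) 0 G S v - 2 ∨
      MS k (A + 1) 0 S + 1 ≤ Dv k (A + 1) 0 G S v := by
  apply Pool.Agent.Helper23.LSr.h5_zero <;> assumption

end Pool.Agent.Helper72.LSr
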