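import Pool.Agent.Helper72.LSr.S6f

/-!
# Section 6: the main lemma
-/

namespace Pool.Agent.Helper72.LSr

open Finset
open scoped Classical

variable {V : Type} {j : ℕ} {G : SimpleGraph V} {S : Finset V} {k A B : ℕ} {w : V}

theorem ML.false (h : ML V j G S k A B w) : False := by
  rcases le_or_gt (Dv k (A + 1) B G S w) (MS k (A + 1) B S) with h1 | h1
  · exact ml_le h h1
  · exact ml_one h (le_antisymm h.hX (by linarith))

end Pool.Agent.Helper72.LSr
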