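import Pool.Agent.Helper72.LSr.S4
import Pool.Agent.Helper72.LSr.S6
import Pool.Agent.Helper50.LSr.S5b
import Pool.Agent.Helper41.LSr.S5d
import Pool.Agent.Helper12.LSr.S5c
import Pool.Agent.Helper8.LSr.S5a

/-!
# Sections 4 and 5: the two cases (pieces LR-S5a .. LR-S5d)
-/

namespace Pool.Agent.Helper72.LSr

open Finset
open scoped Classical

variable {V : Type} {j : ℕ} {G : SimpleGraph V} {S : Finset V} {k A B : ℕ}

/-- Case I: some `Y_v ≥ 1` -/
theorem case1 (h : CE V j G S k A B) (hY : ∃ v ∈ S, 1 ≤ Yv k A B G S v) : False := by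
  apply Pool.Agent.Helper8.LSr.case1 <;> assumption

/-- Case II, `B = 0` -/
theorem case2_zero (h : CE V j G S k (A + 1) 0) (hY : ∀ v ∈ S, Yv k (A + 1) 0 G S v ≤ 0) :
    False := by
  have h1 := id_zero G S k A j
  have h2 : ∑ v ∈ S, Yr k (A + 1) 0 (j + 1) G S v ≤ 0 := by
    apply sum_nonpos
    intro v hv
    have := all_D_pos h v hv
    exact Yr_nonpos h.th1 h.hk (hY v hv) (by linarith)
  rw [h1] at h2
  have h3 : (0 : ℤ) ≤ (A + 1) * k * es k A 0 (j + 1) * gS k (A + 1) 0 G S := by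
    have := es_nonneg k A 0 (j + 1)
    have := h.hg
    positivity
  have h4 := h.hP
  have h5 : (0 : ℤ) < (j : ℤ) + 3 := by positivity
  nlinarith

/-- (II.1) -/
theorem case2_one (h : CE V j G S k A (B + 1)) (hY : ∀ v ∈ S, Yv k A (B + 1) G S v ≤ 0) {w : V}
    (hw : w ∈ S) (hw0 : Yv k A (B + 1) G S w = 0) : False := by
  apply Pool.Agent.Helper50.LSr.case2_one <;> assumption

theorem case2_D (h : CE V j G S k A (B + 1)) (hY : ∀ v ∈ S, Yv k A (B + 1) G S v ≤ 0) :
    ∀ v ∈ S, gS k A (B + 1) G S + 2 ≤ Dv k A (B + 1) G S v := by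
  apply Pool.Agent.Helper12.LSr.case2_D <;> assumption

/-- in the line `(A+1,B)`: `Y^+_v ≥ g + 1` if `X_v ≤ 1 + g` -/
theorem case2_Y (h : CE V j G S k A (B + 1)) (hY : ∀ v ∈ S, Yv k A (B + 1) G S v ≤ 0) :
    ∀ v ∈ S, Dv k A (B + 1) G S v ≤ MS k A (B + 1) S + 1 + gS k A (B + 1) G S →
      gS k A (B + 1) G S + 1 ≤ Yv k (A + 1) B G S v := by
  apply Pool.Agent.Helper12.LSr.case2_Y <;> assumption

/-- (II.2) -/
theorem case2_two (h : CE V j G S k A (B + 1)) (hY : ∀ v ∈ S, Yv k A (B + 1) G S v ≤ -1) :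
    ∃ w, ML V j G S k A B w :=
  Pool.Agent.Helper41.LSr.case2_two h hY
    (case2_D h (fun v hv => by have := hY v hv; linarith))
    (case2_Y h (fun v hv => by have := hY v hv; linarith))

theorem CE.false (h : CE V j G S k A B) : False := by
  by_cases hY : ∃ v ∈ S, 1 ≤ Yv k A B G S v
  · exact case1 h hY
  · push Not at hY
    have hY' : ∀ v ∈ S, Yv k A B G S v ≤ 0 := fun v hv => by have := hY v hv; linarith
    rcases B with _ | B
    · obtain ⟨A', rfl⟩ : ∃ A', A = A' + 1 := ⟨A - 1, by have := h.hAB; omega⟩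
      exact case2_zero h hY'
    · by_cases h0 : ∃ w ∈ S, Yv k A (B + 1) G S w = 0
      · obtain ⟨w, hw, hw0⟩ := h0
        exact case2_one h hY' hw hw0
      · push Not at h0
        obtain ⟨w, hML⟩ := case2_two h (fun v hv => by
          have h1 := hY' v hv
          have h2 := h0 v hv
          omega)
        exact hML.false

end Pool.Agent.Helper72.LSr
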