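import Pool.Agent.Helper72.LSr.T2
import Pool.Agent.Helper72.LSr.Num
import Pool.Agent.Helper37.LSr.M12

/-!
# Section 6: LR-M1
-/

namespace Pool.Agent.Helper72.LSr

open Finset
open scoped Classical

variable {V : Type} {j : ℕ} {G : SimpleGraph V} {S : Finset V} {k A B : ℕ} {w : V}

/-! ### LR-M1 -/

theorem ml_L (h : ML V j G S k A B w) : 0 ≤ (Phi k A B (j + 2) G (nb G S w)) ∧ 0 ≤ (Phi k A B (j + 1) G (nb G S w)) := by
  apply Pool.Agent.Helper37.LSr.ml_L <;> assumption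

theorem ml_con (h : ML V j G S k A B w) {u : V} {R : Finset V} (hu : u ∈ S) (hR : R ⊆ nb G S u) :
    0 ≤ Dv k (A + 1) B G S w * con k A B j G S u R + (es k A B (j + 1)) * (Yv k (A + 1) B G S w * Dv k (A + 1) B G S u - Dv k (A + 1) B G S w * Yv k (A + 1) B G S u) := by
  apply Pool.Agent.Helper37.LSr.ml_con <;> assumption

theorem ml_main (h : ML V j G S k A B w) :
    Dv k (A + 1) B G S w * ((- Phi k (A + 1) B (j + 2) G S) + (Phi k A B (j + 2) G (nb G S w)) + (Phi k A B (j + 1) G (nb G S w))) ≤ (es k A B (j + 1)) * Yv k (A + 1) B G S w * (Dv k (A + 1) B G S w - Yv k (A + 1) B G S w - rS k (A + 1) B G S - K G (NH G S w) 2) ∧ 1 ≤ (es k A B (j + 1)) ∧ 1 + (max (-(rS k (A + 1) B G S)) 0) ≤ (Dv k (A + 1) B G S w - Yv k (A + 1) B G S w - rS k (A + 1) B G S - K G (NH G S w) 2) := by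
  apply Pool.Agent.Helper37.LSr.ml_main <;> assumption

end Pool.Agent.Helper72.LSr
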