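import Pool.Agent.Helper72.LSr.S6a
import Pool.Agent.Helper37.LSr.M12
import Pool.Agent.Helper37.LSr.M5

/-!
# Section 6: LR-M2, LR-M5, LR-M7a
-/

namespace Pool.Agent.Helper72.LSr

open Finset
open scoped Classical

variable {V : Type} {j : ℕ} {G : SimpleGraph V} {S : Finset V} {k A B : ℕ} {w : V}

/-! ### LR-M2 -/

theorem ml_a (h : ML V j G S k A B w) {y y' : V} (hy : y ∈ NH G S w) (hy' : y' ∈ NH G S w)
    (hadj : G.Adj y y') :
    Dv k (A + 1) B G S w * (aa k A B j G S w (Qs G S w y ∪ Qs G S w y') + (- Phi k (A + 1) B (j + 2) G S) + (Phi k A B (j + 2) G (nb G S w)) + (Phi k A B (j + 1) G (nb G S w))) ≤ (es k A B (j + 1)) * Yv k (A + 1) B G S w * (Dv k (A + 1) B G S w - Yv k (A + 1) B G S w - rS k (A + 1) B G S - K G (NH G S w) 2) := by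
  apply Pool.Agent.Helper37.LSr.ml_a <;> assumption

theorem ml_num (h : ML V j G S k A B w) (hm : 1 ≤ (K G (NH G S w) 2)) :
    NumH k (MS k (A + 1) B S) (Dv k (A + 1) B G S w - (MS k (A + 1) B S)) (Dv k (A + 1) B G S w) (Yv k (A + 1) B G S w) (rS k (A + 1) B G S) (K G (NH G S w) 2) := by
  apply Pool.Agent.Helper37.LSr.ml_num <;> assumption

/-! ### LR-M5 -/

/-- `c_wx ≤ G3` for `x ∈ Q_y`; and `c_wx + c_wx' ≤ G3` for `x ∈ Q_y`, `x' ∈ Q_y'`, `y ≠ y'` -/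
theorem ml_c_le (h : ML V j G S k A B w) {y x : V} (hy : y ∈ NH G S w) (hx : x ∈ Qs G S w y) :
    cv k (A + 1) B G S w x ≤ ∑ y ∈ NH G S w, sq k (A + 1) B G S w (Qs G S w y) := by
  exact Pool.Agent.Helper37.LSr.ml_c_le h hy hx

theorem ml_c_add_le (h : ML V j G S k A B w) {y x y' x' : V} (hy : y ∈ NH G S w)
    (hx : x ∈ Qs G S w y) (hy' : y' ∈ NH G S w) (hx' : x' ∈ Qs G S w y') (hne : y ≠ y') :
    cv k (A + 1) B G S w x + cv k (A + 1) B G S w x' ≤ ∑ y ∈ NH G S w, sq k (A + 1) B G S w (Qs G S w y) := by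
  exact Pool.Agent.Helper37.LSr.ml_c_add_le h hy hx hy' hx' hne

/-- deletion of the edge `xx'` of `N_w`, with `c` chunks -/
theorem ml_edge (h : ML V j G S k A B w) {x x' : V} (hx : x ∈ nb G S w) (hx' : x' ∈ nb G S w)
    (hadj : G.Adj x x') (c : ℕ) (hc : (k + 1 - Dv k (A + 1) B G S w) + cv k (A + 1) B G S w x' ≤ c * (Dv k (A + 1) B G S w - Yv k (A + 1) B G S w)) :
    (Dv k (A + 1) B G S w - 1 - cv k (A + 1) B G S w x') * (es k A B (j + 1)) - (es k (A + 1) B (j + 2) - K G (nb G S w ∩ nb G S x) (j + 1))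
      - c * (Phi k A B (j + 1) G (nb G S w)) ≤ (Phi k A B (j + 2) G (nb G S w)) := by
  apply Pool.Agent.Helper37.LSr.ml_edge <;> assumption

/-! ### LR-M7a -/

/-- `γ_w(Q) ≥ -κ` -/
theorem ml_gam (h : ML V j G S k A B w) {R : Finset V} (hR : R ⊆ nb G S w) :
    - (Phi k A B (j + 1) G (nb G S w)) ≤ gam k A B j G S w R := by
  apply Pool.Agent.Helper37.LSr.ml_gam <;> assumption

/-- (U) -/
theorem ml_U (h : ML V j G S k A B w) {x : V} (hx : x ∈ nb G S w) (hc : cv k (A + 1) B G S w x ≤ Dv k (A + 1) B G S w - Yv k (A + 1) B G S w - 1) :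
    es k (A + 1) B (j + 2) - K G (nb G S w ∩ nb G S x) (j + 1) ≤ (Phi k A B (j + 1) G (nb G S w)) + (es k A B (j + 1)) * cv k (A + 1) B G S w x := by
  apply Pool.Agent.Helper37.LSr.ml_U <;> assumption

end Pool.Agent.Helper72.LSr
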