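import Pool.Agent.Helper72.LSr.S6b
import Pool.Agent.Helper76.LSr.M3

/-!
# Section 6: LR-M3
-/

namespace Pool.Agent.Helper72.LSr

open Finset
open scoped Classical

variable {V : Type} {j : ℕ} {G : SimpleGraph V} {S : Finset V} {k A B : ℕ} {w : V}

/-! ### LR-M3 -/

/-- adjacent `u, x ∈ NH`: `D_u + D_x ≥ M + 2` -/
theorem ml_D_add (h : ML V j G S k A B w) {u x : V} (hu : u ∈ NH G S w) (hx : x ∈ NH G S w)
    (hadj : G.Adj u x) : (MS k (A + 1) B S) + 2 ≤ Dv k (A + 1) B G S u + Dv k (A + 1) B G S x := by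
  apply Pool.Agent.Helper76.LSr.ml_D_add <;> assumption

theorem ml_far (h : ML V j G S k A B w) (hm : 1 ≤ (K G (NH G S w) 2)) (f : V → ℕ) (hf : Set.InjOn f (NH G S w))
    (hfD : ∀ x ∈ NH G S w, ∀ u ∈ NH G S w, f x < f u → Dv k (A + 1) B G S x ≤ Dv k (A + 1) B G S u) :
    ∀ u ∈ NH G S w,
      k * (Dv k (A + 1) B G S w * (es k A B (j + 1)) * sq k (A + 1) B G S u (Qf G (NH G S w) f u) + (es k A B (j + 1)) * (Yv k (A + 1) B G S w * Dv k (A + 1) B G S u - Dv k (A + 1) B G S w * Yv k (A + 1) B G S u))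
      ≤ (k + 1) * (Dv k (A + 1) B G S w * con k A B j G S u (Qf G (NH G S w) f u)
          + (es k A B (j + 1)) * (Yv k (A + 1) B G S w * Dv k (A + 1) B G S u - Dv k (A + 1) B G S w * Yv k (A + 1) B G S u)) := by
  apply Pool.Agent.Helper76.LSr.ml_far <;> assumption

end Pool.Agent.Helper72.LSr
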