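import Pool.Agent.Helper72.LSr.S6c
import Pool.Agent.Helper76.LSr.M4

/-!
# Section 6: LR-M4
-/

namespace Pool.Agent.Helper72.LSr

open Finset
open scoped Classical

variable {V : Type} {j : ℕ} {G : SimpleGraph V} {S : Finset V} {k A B : ℕ} {w : V}

/-! ### LR-M4 -/

/-- `C3` and the slack, for some ordering `f` -/
theorem ml_C3 (h : ML V j G S k A B w) (hm : 1 ≤ (K G (NH G S w) 2)) :
    ∃ f : V → ℕ, Set.InjOn f (NH G S w) ∧
      k * (Dv k (A + 1) B G S w * (es k A B (j + 1)) * (∑ u ∈ NH G S w, sq k (A + 1) B G S u (Qf G (NH G S w) f u))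
        + (es k A B (j + 1)) * ∑ u ∈ NH G S w, (Yv k (A + 1) B G S w * Dv k (A + 1) B G S u - Dv k (A + 1) B G S w * Yv k (A + 1) B G S u))
      ≤ (k + 1) * ((es k A B (j + 1)) * Yv k (A + 1) B G S w * (Dv k (A + 1) B G S w - Yv k (A + 1) B G S w - rS k (A + 1) B G S - K G (NH G S w) 2) - Dv k (A + 1) B G S w * ((- Phi k (A + 1) B (j + 2) G S) + (Phi k A B (j + 2) G (nb G S w)) + (Phi k A B (j + 1) G (nb G S w)))) := by
  apply Pool.Agent.Helper76.LSr.ml_C3 <;> assumption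

/-- (EB') -/
theorem ml_EB (h : ML V j G S k A B w) (hm : 1 ≤ (K G (NH G S w) 2)) :
    k * Dv k (A + 1) B G S w * (es k A B (j + 1)) * (∑ y ∈ NH G S w, sq k (A + 1) B G S w (Qs G S w y))
      ≤ k * (es k A B (j + 1)) * (Dv k (A + 1) B G S w - (MS k (A + 1) B S)) * Yv k (A + 1) B G S w * Dv k (A + 1) B G S w + (2 * k + 3) * (es k A B (j + 1)) * Yv k (A + 1) B G S w * (Dv k (A + 1) B G S w - Yv k (A + 1) B G S w - rS k (A + 1) B G S - K G (NH G S w) 2)
        - (3 * k + 3) * Dv k (A + 1) B G S w * ((- Phi k (A + 1) B (j + 2) G S) + (Phi k A B (j + 2) G (nb G S w)) + (Phi k A B (j + 1) G (nb G S w))) := by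
  apply Pool.Agent.Helper76.LSr.ml_EB <;> assumption

/-- `t_B ≤ ε - 1` -/
theorem ml_tB (h : ML V j G S k A B w) (hm : 1 ≤ (K G (NH G S w) 2)) {y y' : V} (hy : y ∈ NH G S w)
    (hy' : y' ∈ NH G S w) (hadj : G.Adj y y') :
    (((Qs G S w y ∪ Qs G S w y').card : ℕ) : ℤ) - (k + 1 - Dv k (A + 1) B G S w) ≤ Dv k (A + 1) B G S w - Yv k (A + 1) B G S w - 1 := by
  apply Pool.Agent.Helper76.LSr.ml_tB <;> assumption

end Pool.Agent.Helper72.LSr
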