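import Pool.Agent.Helper72.LSr.S6d
import Pool.Agent.Helper71.LSr.M6
import Pool.Agent.Helper72.LSr.M8

/-!
# Section 6: LR-M6, LR-M8
-/

namespace Pool.Agent.Helper72.LSr

open Finset
open scoped Classical

variable {V : Type} {j : ℕ} {G : SimpleGraph V} {S : Finset V} {k A B : ℕ} {w : V}

/-! ### LR-M6 -/

theorem ml_step1 (h : ML V j G S k A B w) (hm : 1 ≤ (K G (NH G S w) 2)) {y y' x : V} (hy : y ∈ NH G S w)
    (hy' : y' ∈ NH G S w) (hadj : G.Adj y y')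
    (hpos : 0 < aa k A B j G S w (Qs G S w y ∪ Qs G S w y')) (hx : x ∈ nb G S w) :
    aa k A B j G S w (Qs G S w y ∪ Qs G S w y')
      ≤ es k (A + 1) B (j + 2) - K G (nb G S w ∩ nb G S x) (j + 1) := by
  apply Pool.Agent.Helper71.LSr.ml_step1 <;> assumption

/-! ### LR-M8 -/

theorem ml_no_cross (h : ML V j G S k A B w) (hm : 1 ≤ (K G (NH G S w) 2)) (hX : Dv k (A + 1) B G S w = (MS k (A + 1) B S) + 1) {y y' : V}
    (hy : y ∈ NH G S w) (hy' : y' ∈ NH G S w) (hne : y ≠ y') :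
    ∀ x ∈ Qs G S w y \ Qs G S w y', ∀ x' ∈ Qs G S w y' \ Qs G S w y, ¬ G.Adj x x' := by
  apply Pool.Agent.Helper72.LSr.M8.ml_no_cross <;> assumption

end Pool.Agent.Helper72.LSr
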