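import Pool.Agent.Helper72.LSr.S6e
import Pool.Agent.Helper64.LSr.M7
import Pool.Agent.Helper72.LSr.M9

/-!
# Section 6: LR-M7, LR-M9
-/

namespace Pool.Agent.Helper72.LSr

open Finset
open scoped Classical

variable {V : Type} {j : ℕ} {G : SimpleGraph V} {S : Finset V} {k A B : ℕ} {w : V}

/-! ### LR-M7 -/

/-- the case `X_w ≤ 0` -/
theorem ml_le (h : ML V j G S k A B w) (hX : Dv k (A + 1) B G S w ≤ (MS k (A + 1) B S)) : False := by
  apply Pool.Agent.Helper64.LSr.ml_le <;> assumption

/-! ### LR-M9 -/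

/-- the case `X_w = 1` -/
theorem ml_one (h : ML V j G S k A B w) (hX : Dv k (A + 1) B G S w = (MS k (A + 1) B S) + 1) : False := by
  apply Pool.Agent.Helper72.LSr.M9.ml_one <;> assumption

end Pool.Agent.Helper72.LSr
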