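import Pool.Agent.Helper72.LSr.S5

/-!
# The induction
-/

namespace Pool.Agent.Helper72.LSr

open Finset
open scoped Classical

variable {V : Type}

theorem TH_zero (n m : ℤ) : TH V 0 n m := by
  intro G S hn _ k A B _ _ _
  rw [Vl_zero, show 0 + 1 = 1 from rfl, K_one, hn]

theorem TH_one (n m : ℤ) : TH V 1 n m := by
  intro G S _ hm k A B _ _ _
  rw [Vl_one]
  exact hm

/-- the case `m = K G S 2` with the induction hypotheses -/
theorem TH_exact (j : ℕ) (th0 : ∀ n m, TH V j n m) (th1 : ∀ n m, TH V (j + 1) n m)
    (G : SimpleGraph V) (S : Finset V) (th2 : ∀ n m, n < S.card → TH V (j + 2) n m)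
    (hm : TH V (j + 2) S.card (K G S 2 - 1)) :
    ∀ p k A B : ℕ, A + B ≤ p → 1 ≤ k → 0 ≤ rS k A B G S → 0 ≤ gS k A B G S →
      0 ≤ Phi k A B (j + 2) G S := by
  intro p
  induction p with
  | zero =>
    intro k A B hAB hk hr hg
    obtain ⟨rfl, rfl⟩ : A = 0 ∧ B = 0 := by omega
    unfold Phi Vl
    rw [show j + 2 + 2 = (j + 2) + 2 from rfl, es_empty, show j + 2 + 1 = (j + 1) + 2 from rfl,
      es_empty, es_empty]
    have := K_nonneg G S (j + 1 + 2)
    linarith
  | succ p ih =>
    -- `ρ ≥ 1`
    have key : ∀ k A B : ℕ, A + B ≤ p + 1 → 1 ≤ A + B → 1 ≤ k → 1 ≤ rS k A B G S →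
        0 ≤ gS k A B G S → 0 ≤ Phi k A B (j + 2) G S := by
      intro k A B hAB hAB1 hk hr hg
      by_cases hnu : nu k A B S.card ≤ k
      · obtain ⟨k', A', B', hk', hAB', hr', hg', hV⟩ :=
          neg_step k A B hk hAB1 S.card (K G S 2) (by unfold rS at hr; linarith) hg hnu
        have h1 := ih k' A' B' (by omega) hk' hr' hg'
        have h2 := hV (j + 1)
        unfold Phi at h1 ⊢
        rw [show j + 1 + 1 = j + 2 from rfl] at h2
        linarith
      · by_contra hneg
        push Not at hneg hnu
        refine CE.false (V := V) (j := j) (G := G) (S := S) (k := k) (A := A) (B := B)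
          ⟨hk, hAB1, th0, th1, th2, ?_, by linarith, ?_, hr, hg⟩
        · intro x hx y hy hxy
          have hR : ({y} : Finset V) ⊆ nb G S x := by
            rw [singleton_subset_iff, mem_nb]; exact ⟨hy, hxy⟩
          have hm2 : K (dst G x {y}) S 2 = K G S 2 - 1 := by
            rw [show (2 : ℕ) = 1 + 1 from rfl, K_dst G hx, K_one, K_one,
              card_sdiff_of_subset hR, Nat.cast_sub (card_le_card hR)]
            simp
          have h1 := hm (dst G x {y}) S rfl (by rw [hm2]) k A B hk
            (by rw [rho_sub]; unfold rS at hr; linarith)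
            (by rw [gg_sub]; unfold gS at hg; linarith)
          rw [Vl_sub, K_dst G hx, sdiff_singleton_eq_erase] at h1
          have h2 := K_erase G (show y ∈ nb G S x by rw [mem_nb]; exact ⟨hy, hxy⟩) (j + 1)
          rw [nb_nb] at h2
          unfold Phi at hneg
          rw [show j + 1 + 1 = j + 2 from rfl] at h2
          linarith
        · unfold MS Mm; linarith
    intro k A B hAB hk hr hg
    rcases Nat.eq_zero_or_pos (A + B) with h0 | hpos
    · obtain ⟨rfl, rfl⟩ : A = 0 ∧ B = 0 := by omega
      exact ih k 0 0 (by omega) hk hr hg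
    rcases (show rS k A B G S = 0 ∨ 1 ≤ rS k A B G S by omega) with hr0 | hr1
    · have hM := rS_add_gS G S k A B
      rcases A with _ | A
      · -- switch
        have h1 := key (k + 1) B 0 (by omega) (by omega) (by omega)
          (by rw [rS_sw]; linarith) (by rw [gS_sw]; linarith)
        rw [Phi_sw] at h1
        exact h1
      · have h1 := key k A (B + 1) (by omega) (by omega) hk
          (by rw [rS_low]; linarith) (by rw [gS_low]; linarith)
        rw [show j + 2 = (j + 1) + 1 from rfl, Phi_low, hr0, mul_zero, sub_zero] at h1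
        exact h1
    · exact key k A B hAB hpos hk hr1 hg

theorem TH_step (j : ℕ) (th0 : ∀ n m, TH V j n m) (th1 : ∀ n m, TH V (j + 1) n m) :
    ∀ n m, TH V (j + 2) n m := by
  -- strong induction on `n = |S|`
  have hn : ∀ N : ℕ, ∀ n : ℤ, n ≤ N → ∀ m, TH V (j + 2) n m := by
    intro N
    induction N with
    | zero =>
      intro n hn m G S hSn hm k A B hk hr hg
      have h0 : S = ∅ := by
        rw [← card_eq_zero]
        have : (S.card : ℤ) ≤ 0 := by rw [hSn]; exact_mod_cast hn
        omega
      subst h0
      have h2 : K G (∅ : Finset V) 2 = 0 := K_empty G 1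
      rw [K_empty]
      rw [h2] at hm
      exact num0 k A B hk n m hm hr hg (j + 1)
    | succ N ihN =>
      intro n hn m
      -- induction on `m`
      have hmm : ∀ M : ℕ, ∀ m : ℤ, m ≤ M → TH V (j + 2) n m := by
        intro M
        induction M with
        | zero =>
          intro m hm G S hSn hm' k A B hk hr hg
          have h1 := num0 k A B hk n m (by exact_mod_cast hm) hr hg (j + 1)
          have h2 := K_nonneg G S (j + 2 + 1)
          rw [show j + 1 + 1 = j + 2 from rfl] at h1
          linarith
        | succ M ihM =>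
          intro m hm G S hSn hm' k A B hk hr hg
          by_cases hmle : m ≤ 0
          · exact ihM m (by have : (0 : ℤ) ≤ M := by positivity
                            linarith) G S hSn hm' k A B hk hr hg
          push Not at hmle
          obtain ⟨G', hG', hG'le⟩ := exists_subgraph G S m hmle.le hm'
          have h1 := TH_exact j th0 th1 G' S (fun n' m' hn' => ihN n' (by
              have h3 : (n' : ℤ) < S.card := by exact_mod_cast hn'
              rw [hSn] at h3
              push_cast at hn
              linarith) m')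
            (by rw [hG', hSn]; exact ihM (m - 1) (by push_cast at hm; linarith))
            (A + B) k A B le_rfl hk (by unfold rS; rw [hG', hSn]; exact hr)
            (by unfold gS; rw [hG', hSn]; exact hg)
          unfold Phi at h1
          rw [hG', hSn] at h1
          have h2 := hG'le (j + 2 + 1)
          linarith
      exact hmm m.toNat m (Int.self_le_toNat m)
  intro n m
  exact hn n.toNat n (Int.self_le_toNat n) m

theorem TH_all : ∀ i : ℕ, (∀ n m, TH V i n m) ∧ (∀ n m, TH V (i + 1) n m) := by
  intro i
  induction i with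
  | zero => exact ⟨TH_zero, TH_one⟩
  | succ i ih => exact ⟨ih.2, TH_step i ih.1 ih.2⟩

/-- the theorem: a valid line is a lower bound -/
theorem main_bound (G : SimpleGraph V) (S : Finset V) (k A B : ℕ) (hk : 1 ≤ k)
    (hr : 0 ≤ rho k A B S.card (K G S 2)) (hg : 0 ≤ gg k A B S.card (K G S 2)) (i : ℕ) :
    Vl k A B i S.card (K G S 2) ≤ K G S (i + 1) :=
  (TH_all i).1 _ _ G S rfl le_rfl k A B hk hr hg

end Pool.Agent.Helper72.LSr
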