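import Pool.Agent.Helper72.LSr.S7
import Pool.Agent.Helper72.LSr.E2

/-!
# The theorem
-/

namespace Pool.Agent.Helper72.LSr

open Finset
open scoped Classical

/-- for all `n ≥ 1` and `m ≤ C(n,2)` one graph of partite-plus-triangle-free form minimises the
number of `K_r` for all `r ≥ 3` at the same time -/
theorem main (n m : ℕ) (hn : 1 ≤ n) (hm : m ≤ n.choose 2) :
    ∃ G : SimpleGraph (Fin n), G.edgeSet.ncard = m ∧ PartiteForm G ∧
      ∀ r, 3 ≤ r → ∀ G' : SimpleGraph (Fin n), G'.edgeSet.ncard = m → numK r G ≤ numK r G' := by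
  haveI : Nonempty (Fin n) := ⟨⟨0, by omega⟩⟩
  rcases Nat.eq_zero_or_pos m with hm0 | hm0
  · subst hm0
    refine ⟨⊥, by simp, partiteForm_bot, fun r hr G' _ => ?_⟩
    rw [numK_bot r (by omega)]
    exact Nat.zero_le _
  · obtain ⟨k, A, B, hk, hM, hr, hg⟩ := exists_valid n m hm0 hm
    obtain ⟨W, instW, Γ, hW, hΓ, hΓf⟩ := form_line k A B n m hk hM hr hg
    have eW : Fin n ≃ W := (Fintype.equivFinOfCardEq hW).symm
    have h2 : K (Γ.comap eW) univ 2 = m := by
      rw [K_comap, show (2 : ℕ) = 1 + 1 from rfl, hΓ 1, Vl_one]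
    refine ⟨Γ.comap eW, ?_, hΓf.comap eW, ?_⟩
    · have h1 := ncard_edgeSet (Γ.comap eW)
      rw [h2] at h1
      exact_mod_cast h1
    · intro r hr3 G' hG'
      obtain ⟨i, rfl⟩ : ∃ i, r = i + 1 := ⟨r - 1, by omega⟩
      have h3 := ncard_edgeSet G'
      rw [hG'] at h3
      have h4 := main_bound G' univ k A B hk
        (by rw [← h3, card_univ, Fintype.card_fin]; exact hr)
        (by rw [← h3, card_univ, Fintype.card_fin]; exact hg) i
      rw [← h3, card_univ, Fintype.card_fin] at h4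
      have h5 := numK_eq (Γ.comap eW) (i + 1)
      have h6 := numK_eq G' (i + 1)
      rw [K_comap, hΓ i] at h5
      have h7 : (numK (i + 1) (Γ.comap eW) : ℤ) ≤ numK (i + 1) G' := by
        rw [h5, h6]; exact h4
      exact_mod_cast h7

end Pool.Agent.Helper72.LSr
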