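import Pool.Agent.Helper72.LSr.I1
import Pool.Agent.Helper72.LSr.N3

/-!
# Using the induction hypothesis `TH`
-/

namespace Pool.Agent.Helper72.LSr

open Finset
open scoped Classical

variable {V : Type} {G : SimpleGraph V} {S : Finset V}

theorem rS_eq (k A B : ℕ) : rS k A B G S = MS k A B S - gS k A B G S := by
  have := rS_add_gS G S k A B
  linarith

/-- `TH` at a smaller number of edges -/
theorem Phi_ge {i k A B : ℕ} (h : ∀ m, TH V i S.card m) (hk : 1 ≤ k) (x : ℤ) (hx : 0 ≤ x)
    (hr : x ≤ rS k A B G S) (hg : 0 ≤ gS k A B G S + x) :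
    - x * es k A B i ≤ Phi k A B i G S := by
  have h1 := h (K G S 2 - x) G S rfl (by linarith) k A B hk
    (by rw [rho_sub]; unfold rS at hr; linarith) (by rw [gg_sub]; exact hg)
  rw [Vl_sub] at h1
  unfold Phi
  linarith

theorem Phi_nonneg {i k A B : ℕ} (h : ∀ m, TH V i S.card m) (hk : 1 ≤ k)
    (hr : 0 ≤ rS k A B G S) (hg : 0 ≤ gS k A B G S) : 0 ≤ Phi k A B i G S := by
  have := Phi_ge h hk 0 le_rfl hr (by linarith)
  linarith

/-- (Cheap) -/
theorem Phi_cheap {i k A B : ℕ} (h : ∀ m, TH V i S.card m) (hk : 1 ≤ k)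
    (hg : gS k A B G S ≤ 0) (hM : 0 ≤ MS k A B S) :
    gS k A B G S * es k A B i ≤ Phi k A B i G S := by
  have h1 := rS_eq (G := G) (S := S) k A B
  have := Phi_ge h hk (- gS k A B G S) (by linarith) (by linarith) (by linarith)
  linarith

/-- (OV) -/
theorem Phi_ov {j k A B : ℕ} (h : ∀ m, TH V (j + 1) S.card m) (hk : 2 ≤ k) (x' : ℤ)
    (h0 : 0 ≤ x') (h1 : x' ≤ - gS k A B G S) (h2 : x' ≤ MS k A B S - 2) :
    - ((k + 1) * (- gS k A B G S - x') * es k A B (j + 1)) - x' * es k A B (j + 1)
      ≤ (k + 1) * Phi k A B (j + 1) G S := by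
  set x : ℤ := - gS k A B G S with hx
  set m' : ℤ := K G S 2 - (x - x') with hm'
  have hgm : gg k A B S.card m' = - x' := by
    rw [hm', gg_sub]
    have : gg k A B S.card (K G S 2) = - x := by rw [hx]; unfold gS; ring
    rw [this]; ring
  have hVm : Vl k A B (j + 1) S.card m'
      = Vl k A B (j + 1) S.card (K G S 2) - (x - x') * es k A B (j + 1) := by
    rw [hm', Vl_sub]
  have hm'le : m' ≤ K G S 2 := by rw [hm']; linarith
  rcases B with _ | B
  · -- `(k-1)`-representation
    obtain ⟨k', rfl⟩ : ∃ k', k = k' + 1 := ⟨k - 1, by omega⟩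
    have hk' : 1 ≤ k' := by omega
    have e1 := gg_sw k' A S.card m'
    have e2 := Mm_sw k' A S.card
    have e3 := rho_add_gg k' 0 A S.card m'
    have hr : rho k' 0 A S.card m' = x' := by linarith
    have hg : 0 ≤ gg k' 0 A S.card m' := by
      unfold MS at h2
      linarith
    have h3 := h m' G S rfl hm'le k' 0 A hk' (by rw [hr]; exact h0) hg
    rw [← Vl_sw, hVm] at h3
    unfold Phi
    have hpos : 0 ≤ x' * es (k' + 1) A 0 (j + 1) := mul_nonneg h0 (es_nonneg _ _ _ _)
    have h4 : -((x - x') * es (k' + 1) A 0 (j + 1))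
        ≤ K G S (j + 1 + 1) - Vl (k' + 1) A 0 (j + 1) S.card (K G S 2) := by linarith
    have h5 : (0 : ℤ) ≤ ((k' + 1 : ℕ) : ℤ) + 1 := by positivity
    nlinarith [mul_le_mul_of_nonneg_left h4 h5]
  · have e1 := gg_low k A B S.card m'
    have e2 := Mm_low k A B S.card
    have e3 := rho_add_gg k (A + 1) B S.card m'
    have hr : rho k (A + 1) B S.card m' = x' := by linarith
    have hg : 0 ≤ gg k (A + 1) B S.card m' := by
      unfold MS at h2
      linarith
    have h3 := h m' G S rfl hm'le k (A + 1) B (by omega) (by rw [hr]; exact h0) hg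
    have e4 := Vl_low k A B j S.card m'
    rw [hr, hVm] at e4
    have e5 := es_sB k A B j
    have h6 := es_nonneg k A B (j + 1)
    unfold Phi
    have h4 : -((x - x') * es k A (B + 1) (j + 1)) - es k A B j * x'
        ≤ K G S (j + 1 + 1) - Vl k A (B + 1) (j + 1) S.card (K G S 2) := by linarith
    have h5 : (0 : ℤ) ≤ (k : ℤ) + 1 := by positivity
    have h7 := mul_le_mul_of_nonneg_left h4 h5
    have h8 : 0 ≤ x' * es k A B (j + 1) := mul_nonneg h0 h6
    have h9 : x' * es k A (B + 1) (j + 1) = x' * es k A B (j + 1) + (k + 1) * (es k A B j * x') := by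
      rw [e5]; ring
    linarith

/-! ### star deletions -/

/-- `TH` after the deletion of the edges from `x` to `R` -/
theorem Phi_dst {k A B i : ℕ} {x : V} (hx : x ∈ S) {R : Finset V} (hR : R ⊆ nb G S x) :
    Phi k A B i (dst G x R) S
      = Phi k A B i G S - (K G (nb G S x) i - K G (nb G S x \ R) i) + R.card * es k A B i := by
  have h2 : K (dst G x R) S 2 = K G S 2 - R.card := by
    rw [show (2 : ℕ) = 1 + 1 from rfl, K_dst G hx, K_one, K_one, card_sdiff_of_subset hR]
    rw [Nat.cast_sub (card_le_card hR)]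
    ring
  unfold Phi
  rw [h2, K_dst G hx, Vl_sub]
  ring

theorem gS_dst {k A B : ℕ} {x : V} (hx : x ∈ S) {R : Finset V} (hR : R ⊆ nb G S x) :
    gS k A B (dst G x R) S = gS k A B G S + R.card := by
  have h2 : K (dst G x R) S 2 = K G S 2 - R.card := by
    rw [show (2 : ℕ) = 1 + 1 from rfl, K_dst G hx, K_one, K_one, card_sdiff_of_subset hR]
    rw [Nat.cast_sub (card_le_card hR)]
    ring
  unfold gS
  rw [h2, gg_sub]

theorem rS_dst {k A B : ℕ} {x : V} (hx : x ∈ S) {R : Finset V} (hR : R ⊆ nb G S x) :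
    rS k A B (dst G x R) S = rS k A B G S - R.card := by
  have h1 := rS_eq (G := G) (S := S) k A B
  have h2 := rS_eq (G := dst G x R) (S := S) k A B
  have h3 := gS_dst (k := k) (A := A) (B := B) hx hR
  linarith

/-- one chunk: the cliques through `x` that meet `R` -/
theorem star_bound {k A B i : ℕ} (h : ∀ m, TH V i S.card m) (hk : 1 ≤ k) {x : V} (hx : x ∈ S)
    {R : Finset V} (hR : R ⊆ nb G S x) (hr : (R.card : ℤ) ≤ rS k A B G S)
    (hg : 0 ≤ gS k A B G S) :
    K G (nb G S x) i - K G (nb G S x \ R) i ≤ Phi k A B i G S + R.card * es k A B i := by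
  have h1 := Phi_nonneg (G := dst G x R) h hk (by rw [rS_dst hx hR]; linarith)
    (by rw [gS_dst hx hR]; positivity)
  rw [Phi_dst hx hR] at h1
  linarith

/-- `c` chunks -/
theorem star_bound_chunks {k A B i : ℕ} (h : ∀ m, TH V i S.card m) (hk : 1 ≤ k) {x : V}
    (hx : x ∈ S) (hr0 : 0 ≤ rS k A B G S) (hg : 0 ≤ gS k A B G S) (c : ℕ) :
    ∀ R : Finset V, R ⊆ nb G S x → (R.card : ℤ) ≤ c * rS k A B G S →
    K G (nb G S x) i - K G (nb G S x \ R) i ≤ c * Phi k A B i G S + R.card * es k A B i := by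
  have hP := Phi_nonneg (i := i) (G := G) h hk hr0 hg
  induction c with
  | zero =>
    intro R hR hc
    have h0 : R.card = 0 := by
      have : (R.card : ℤ) ≤ 0 := by simpa using hc
      omega
    rw [card_eq_zero] at h0
    subst h0
    simp
  | succ c ih =>
    intro R hR hc
    by_cases hle : (R.card : ℤ) ≤ rS k A B G S
    · have := star_bound h hk hx hR hle hg
      push_cast
      have h2 : (0 : ℤ) ≤ c * Phi k A B i G S := mul_nonneg (by positivity) hP
      linarith
    · push Not at hle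
      obtain ⟨e, he⟩ : ∃ e : ℕ, (e : ℤ) = rS k A B G S := ⟨(rS k A B G S).toNat, by
        rw [Int.toNat_of_nonneg hr0]⟩
      have he' : e ≤ R.card := by
        have : (e : ℤ) < R.card := by rw [he]; exact hle
        omega
      obtain ⟨R1, hR1, hR1c⟩ := exists_subset_card_eq he'
      have hu : R1 ∪ (R \ R1) = R := union_sdiff_of_subset hR1
      have hcard : ((R \ R1).card : ℤ) = R.card - R1.card := by
        rw [card_sdiff_of_subset hR1, Nat.cast_sub (card_le_card hR1)]
      have h1 := star_bound h hk hx (hR1.trans hR) (by rw [hR1c, he]) hg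
      have h2 := ih (R \ R1) (sdiff_subset.trans hR) (by
        rw [hcard, hR1c, he]; push_cast at hc; linarith)
      have h3 := K_sub_sdiff_union G (nb G S x) R1 (R \ R1) i
      rw [hu] at h3
      rw [hcard] at h2
      push_cast
      linarith

/-- deletion of one edge -/
theorem edge_bound {k A B i : ℕ} (h : ∀ m, TH V (i + 1) S.card m) (hk : 1 ≤ k) {x x' : V}
    (hx : x ∈ S) (hx' : x' ∈ S) (hadj : G.Adj x x') (hr : 1 ≤ rS k A B G S)
    (hg : 0 ≤ gS k A B G S) :
    K G (nb G S x ∩ nb G S x') i - es k A B (i + 1) ≤ Phi k A B (i + 1) G S := by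
  have hR : ({x'} : Finset V) ⊆ nb G S x := by
    rw [singleton_subset_iff, mem_nb]; exact ⟨hx', hadj⟩
  have h1 := star_bound h hk hx hR (by simpa using hr) hg
  rw [sdiff_singleton_eq_erase] at h1
  rw [K_erase G (show x' ∈ nb G S x by rw [mem_nb]; exact ⟨hx', hadj⟩), nb_nb] at h1
  simp only [card_singleton, Nat.cast_one, one_mul] at h1
  linarith

end Pool.Agent.Helper72.LSr
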